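import Pool.Agent.Lib_helper50.A56.L.PA

/-!
# Probability layer: definitions used in several blocks (helper78)
-/

open Matrix Finset

namespace A56

noncomputable section

/-- The size of a quadratic form. -/
def qn {n : ℕ} (X : Matrix (Fin n) (Fin n) ℝ) : ℝ :=
  sSup {r | ∃ x : Fin n → ℝ, sq x ≤ 1 ∧ r = |qf X x|}

/-- The mass of the bits: the hit indicator divided by the rate. -/
def fh {B : ℕ} (e : ℕ) (w : Fin B → Bool) : ℝ := if hit e w then 4 ^ e else 0

/-- One CountSketch. -/
def sk1 {n b : ℕ} (w : Fin n → Bool × (Fin b → Bool)) : Matrix (Fin b → Bool) (Fin n) ℝ :=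
  fun p i => if (w i).2 = p then sgn (w i).1 else 0

end

end A56
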