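import Pool.Agent.Lib_helper50.A56.L.PA

/-! # MP_a55cb8, probability layer, block E3 -/

open Matrix Finset

namespace A56

noncomputable section

theorem PE3_sq_dot {n : Type*} [Fintype n] (x : n → ℝ) : sq x = x ⬝ᵥ x := by
  unfold sq dotProduct
  exact Finset.sum_congr rfl fun i _ => by ring

theorem PE3_sq_mulVec {m n : Type*} [Fintype m] [Fintype n] (M : Matrix m n ℝ) (a : n → ℝ) :
    sq (M *ᵥ a) = a ⬝ᵥ ((Mᵀ * M) *ᵥ a) := by
  rw [PE3_sq_dot, ← mulVec_mulVec, dotProduct_mulVec a Mᵀ, vecMul_transpose]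

/-- diagonalisation of a real symmetric matrix -/
theorem PE3_diag {d : ℕ} (Q : Matrix (Fin d) (Fin d) ℝ) (hQ : Qᵀ = Q) :
    ∃ (P : Matrix (Fin d) (Fin d) ℝ) (lam : Fin d → ℝ), Pᵀ * P = 1 ∧ P * Pᵀ = 1 ∧
      Pᵀ * Q * P = diagonal lam := by
  have hH : Q.IsHermitian := by
    rw [Matrix.IsHermitian, conjTranspose_eq_transpose_of_trivial, hQ]
  refine ⟨(hH.eigenvectorUnitary : Matrix (Fin d) (Fin d) ℝ), hH.eigenvalues, ?_, ?_, ?_⟩
  · have := Unitary.coe_star_mul_self hH.eigenvectorUnitary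
    rwa [star_eq_conjTranspose, conjTranspose_eq_transpose_of_trivial] at this
  · have := Unitary.coe_mul_star_self hH.eigenvectorUnitary
    rwa [Unitary.coe_star, star_eq_conjTranspose, conjTranspose_eq_transpose_of_trivial] at this
  · have h1 := hH.conjStarAlgAut_star_eigenvectorUnitary
    rw [Unitary.conjStarAlgAut_star_apply, star_eq_conjTranspose,
      conjTranspose_eq_transpose_of_trivial] at h1
    rw [h1]
    rfl

/-- E3: for a matrix `S` with few bad directions on `U` there is a small exceptional subspace. -/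
theorem split_form {n : ℕ} {β : Type*} [Fintype β] (S : Matrix β (Fin n) ℝ)
    (U : Submodule ℝ (Fin n → ℝ)) (d : ℕ) (hd : Module.finrank ℝ U = d)
    (v : Fin d → Fin n → ℝ) (hv : ∀ i, v i ∈ U)
    (ho : ∀ i j, v i ⬝ᵥ v j = if i = j then 1 else 0) :
    ∃ V : Submodule ℝ (Fin n → ℝ), V ≤ U ∧
      (Module.finrank ℝ V : ℝ) ≤
        4 * ∑ i, ∑ j, ((S *ᵥ v i) ⬝ᵥ (S *ᵥ v j) - v i ⬝ᵥ v j) ^ 2 ∧
      ∀ x ∈ U, ∃ y ∈ V, sq (x - y) ≤ 2 * sq (S *ᵥ x) := by
  classical
  -- the matrix with columns `v i`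
  set Vm : Matrix (Fin n) (Fin d) ℝ := Matrix.of fun a i => v i a with hVm
  have hcol : ∀ i, Vm.col i = v i := fun i => rfl
  have hVV : Vmᵀ * Vm = 1 := by
    ext i j
    have h1 : (Vmᵀ * Vm) i j = v i ⬝ᵥ v j := rfl
    rw [h1, ho, one_apply]
  set Q : Matrix (Fin d) (Fin d) ℝ := (S * Vm)ᵀ * (S * Vm) with hQ
  have hQij : ∀ i j, Q i j = (S *ᵥ v i) ⬝ᵥ (S *ᵥ v j) := fun i j => rfl
  have hQs : Qᵀ = Q := by rw [hQ, transpose_mul, transpose_transpose]
  obtain ⟨P, lam, hP1, hP2, hP3⟩ := PE3_diag Q hQs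
  set W : Matrix (Fin n) (Fin d) ℝ := Vm * P with hW
  have hWW : Wᵀ * W = 1 := by
    rw [hW, transpose_mul, Matrix.mul_assoc, ← Matrix.mul_assoc Vmᵀ, hVV, Matrix.one_mul, hP1]
  have hSW : (S * W)ᵀ * (S * W) = diagonal lam := by
    rw [← hP3, hQ, hW, ← Matrix.mul_assoc S, transpose_mul (S * Vm) P]
    simp only [Matrix.mul_assoc]
  -- Frobenius norm
  have hfro : ∑ i, ∑ j, ((S *ᵥ v i) ⬝ᵥ (S *ᵥ v j) - v i ⬝ᵥ v j) ^ 2 = ∑ k, (lam k - 1) ^ 2 := by
    have h1 : ∑ i, ∑ j, ((S *ᵥ v i) ⬝ᵥ (S *ᵥ v j) - v i ⬝ᵥ v j) ^ 2 =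
        ((Q - 1) * (Q - 1)).trace := by
      unfold Matrix.trace
      refine Finset.sum_congr rfl fun i _ => ?_
      rw [diag_apply, mul_apply]
      refine Finset.sum_congr rfl fun j _ => ?_
      have h2 : (Q - 1) j i = (Q - 1) i j := by
        have : (Q - 1)ᵀ = Q - 1 := by rw [transpose_sub, hQs, transpose_one]
        conv_lhs => rw [← this]
        rfl
      rw [h2, Matrix.sub_apply, hQij, one_apply, ← ho]
      ring
    have h3 : ((Q - 1) * (Q - 1)).trace =
        ((diagonal lam - 1) * (diagonal lam - 1)).trace := by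
      have h4 : Pᵀ * (Q - 1) * P = diagonal lam - 1 := by
        rw [Matrix.mul_sub, Matrix.mul_one, Matrix.sub_mul, hP3, hP1]
      rw [← h4]
      have h5 : Pᵀ * (Q - 1) * P * (Pᵀ * (Q - 1) * P) = Pᵀ * ((Q - 1) * (Q - 1) * P) := by
        calc Pᵀ * (Q - 1) * P * (Pᵀ * (Q - 1) * P)
            = Pᵀ * (Q - 1) * (P * Pᵀ) * (Q - 1) * P := by simp only [Matrix.mul_assoc]
          _ = Pᵀ * ((Q - 1) * (Q - 1) * P) := by
              rw [hP2, Matrix.mul_one]; simp only [Matrix.mul_assoc]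
      rw [h5, trace_mul_comm Pᵀ, Matrix.mul_assoc ((Q - 1) * (Q - 1)), hP2, Matrix.mul_one]
    rw [h1, h3]
    have h6 : (diagonal lam - 1 : Matrix (Fin d) (Fin d) ℝ) = diagonal (fun k => lam k - 1) := by
      rw [← diagonal_one, diagonal_sub]
    rw [h6, diagonal_mul_diagonal, trace_diagonal]
    exact Finset.sum_congr rfl fun k _ => by ring
  -- `U` is the range of `W`
  have hlin : LinearIndependent ℝ W.col := by
    rw [Fintype.linearIndependent_iff]
    intro g hg k
    have h1 : W *ᵥ g = 0 := by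
      rw [← hg, mulVec_eq_sum]
      refine Finset.sum_congr rfl fun i _ => ?_
      ext a
      simp [mul_comm]
    have h2 : g = Wᵀ *ᵥ (W *ᵥ g) := by rw [mulVec_mulVec, hWW, one_mulVec]
    rw [h1, mulVec_zero] at h2
    rw [h2]; rfl
  have hWU : ∀ k, W.col k ∈ U := by
    intro k
    have h1 : W.col k = ∑ i, P i k • v i := by
      ext a
      rw [Finset.sum_apply]
      show (Vm * P) a k = _
      rw [mul_apply]
      refine Finset.sum_congr rfl fun i _ => ?_
      simp [hVm, mul_comm]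
    rw [h1]
    exact U.sum_mem fun i _ => U.smul_mem _ (hv i)
  have hspan : Submodule.span ℝ (Set.range W.col) = U := by
    refine Submodule.eq_of_le_of_finrank_eq ?_ ?_
    · rw [Submodule.span_le]
      rintro _ ⟨k, rfl⟩
      exact hWU k
    · rw [finrank_span_eq_card hlin, Fintype.card_fin, hd]
  refine ⟨Submodule.span ℝ (Set.range fun k : {k : Fin d // lam k < 1 / 2} => W.col k), ?_, ?_, ?_⟩
  · rw [Submodule.span_le]
    rintro _ ⟨k, rfl⟩
    exact hWU k
  · have h1 : Module.finrank ℝ (Submodule.span ℝ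
        (Set.range fun k : {k : Fin d // lam k < 1 / 2} => W.col k)) ≤
        Fintype.card {k : Fin d // lam k < 1 / 2} :=
      finrank_range_le_card _
    rw [hfro]
    have h2 : (Fintype.card {k : Fin d // lam k < 1 / 2} : ℝ) =
        ∑ k ∈ univ.filter (fun k => lam k < 1 / 2), (1 : ℝ) := by
      rw [Fintype.card_subtype, Finset.sum_const, nsmul_eq_mul, mul_one]
    calc _ ≤ (Fintype.card {k : Fin d // lam k < 1 / 2} : ℝ) := by exact_mod_cast h1
      _ = ∑ k ∈ univ.filter (fun k => lam k < 1 / 2), (1 : ℝ) := h2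
      _ ≤ ∑ k ∈ univ.filter (fun k => lam k < 1 / 2), 4 * (lam k - 1) ^ 2 := by
          refine Finset.sum_le_sum fun k hk => ?_
          have := (Finset.mem_filter.1 hk).2
          nlinarith
      _ ≤ ∑ k, 4 * (lam k - 1) ^ 2 :=
          Finset.sum_le_sum_of_subset_of_nonneg (Finset.filter_subset _ _)
            fun k _ _ => by positivity
      _ = 4 * ∑ k, (lam k - 1) ^ 2 := by rw [Finset.mul_sum]
  · intro x hx
    rw [← hspan] at hx
    obtain ⟨a, rfl⟩ := (Submodule.mem_span_range_iff_exists_fun ℝ).1 hx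
    set b : Fin d → ℝ := fun k => if lam k < 1 / 2 then 0 else a k with hb
    refine ⟨∑ k, (a k - b k) • W.col k, ?_, ?_⟩
    · refine Submodule.sum_mem _ fun k _ => ?_
      by_cases hk : lam k < 1 / 2
      · exact Submodule.smul_mem _ _ (Submodule.subset_span ⟨⟨k, hk⟩, rfl⟩)
      · have : a k - b k = 0 := by simp only [hb, if_neg hk, sub_self]
        rw [this, zero_smul]
        exact Submodule.zero_mem _
    · have hmv : ∀ g : Fin d → ℝ, ∑ k, g k • W.col k = W *ᵥ g := by
        intro g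
        rw [mulVec_eq_sum]
        refine Finset.sum_congr rfl fun i _ => ?_
        ext a
        simp [mul_comm]
      rw [← Finset.sum_sub_distrib]
      have h1 : ∑ k, (a k • W.col k - (a k - b k) • W.col k) = W *ᵥ b := by
        rw [← hmv]
        refine Finset.sum_congr rfl fun k _ => ?_
        rw [← sub_smul]
        congr 1
        ring
      rw [h1, hmv, PE3_sq_mulVec, hWW, one_mulVec, mulVec_mulVec, PE3_sq_mulVec, hSW]
      have h2 : a ⬝ᵥ (diagonal lam *ᵥ a) = ∑ k, lam k * a k ^ 2 := by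
        unfold dotProduct
        refine Finset.sum_congr rfl fun k _ => ?_
        rw [mulVec_diagonal]
        ring
      have hlam : ∀ k, 0 ≤ lam k := by
        intro k
        have h3 := PE3_sq_mulVec (S * W) (Pi.single k 1)
        rw [hSW] at h3
        have h4 : (Pi.single k (1 : ℝ) : Fin d → ℝ) ⬝ᵥ (diagonal lam *ᵥ Pi.single k 1) = lam k := by
          simp
        rw [h4] at h3
        rw [← h3]
        exact Finset.sum_nonneg fun i _ => sq_nonneg _
      rw [h2, Finset.mul_sum]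
      unfold dotProduct
      refine Finset.sum_le_sum fun k _ => ?_
      have := hlam k
      by_cases hk : lam k < 1 / 2
      · simp only [hb, if_pos hk]
        have := mul_nonneg this (sq_nonneg (a k))
        linarith
      · simp only [hb, if_neg hk]
        push Not at hk
        nlinarith [sq_nonneg (a k), mul_nonneg (sub_nonneg.2 hk) (sq_nonneg (a k))]

end

end A56
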