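import Pool.Agent.Lib_helper50.A56.L.P_J1

/-! Block J3: anticoncentration and concentration of a Rademacher sum. -/

open Finset

namespace A56

noncomputable section

theorem PJ3_sq_nonneg {d : ℕ} (v : Fin d → ℝ) : 0 ≤ sq v := by
  unfold sq; positivity

/-- J3 -/
theorem sgn_lower {d : ℕ} (v : Fin d → ℝ) :
    frac (fun g : Fin d → Bool => (∑ j, v j * sgn (g j)) ^ 2 < sq v / 2) ≤ 11 / 12 := by
  classical
  rcases (PJ3_sq_nonneg v).eq_or_lt with h0 | h0
  · have h1 : frac (fun g : Fin d → Bool => (∑ j, v j * sgn (g j)) ^ 2 < sq v / 2) ≤
        frac (fun _ : Fin d → Bool => False) := by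
      apply frac_mono
      intro g hg
      rw [← h0] at hg
      have := sq_nonneg (∑ j, v j * sgn (g j))
      linarith
    rw [frac_false] at h1
    linarith
  · set s := sq v with hs
    have h1 : s ≤ s / 2 + (1 / (12 * s)) * (3 * s ^ 2) +
        3 * s * frac (fun g : Fin d → Bool => ¬ (∑ j, v j * sgn (g j)) ^ 2 < s / 2) := by
      calc s = av (fun g : Fin d → Bool => (∑ j, v j * sgn (g j)) ^ 2) := (sgn_second v).symm
        _ ≤ av (fun g : Fin d → Bool => (s / 2 + (1 / (12 * s)) * (∑ j, v j * sgn (g j)) ^ 4) +
            3 * s * (if ¬ (∑ j, v j * sgn (g j)) ^ 2 < s / 2 then (1 : ℝ) else 0)) := by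
            apply av_mono
            intro g
            set z := (∑ j, v j * sgn (g j)) with hz
            have e4 : z ^ 4 = (z ^ 2) ^ 2 := by ring
            by_cases hc : z ^ 2 < s / 2
            · rw [if_neg (not_not.2 hc)]
              have : 0 ≤ 1 / (12 * s) * z ^ 4 := by positivity
              linarith
            · rw [if_pos hc, e4]
              have h2 : 0 ≤ (z ^ 2 - 6 * s) ^ 2 / (12 * s) := by positivity
              have h3 : (z ^ 2 - 6 * s) ^ 2 / (12 * s) =
                  1 / (12 * s) * (z ^ 2) ^ 2 - z ^ 2 + 3 * s := by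
                field_simp
                ring
              rw [h3] at h2
              linarith
        _ = s / 2 + (1 / (12 * s)) * av (fun g : Fin d → Bool => (∑ j, v j * sgn (g j)) ^ 4) +
            3 * s * frac (fun g : Fin d → Bool => ¬ (∑ j, v j * sgn (g j)) ^ 2 < s / 2) := by
            rw [av_add, av_add, av_const, av_mul_left, av_mul_left]
            congr 2
            rw [frac_eq_av]
            apply av_congr
            intro g
            congr
        _ ≤ _ := by
            have := sgn_fourth v
            gcongr
    rw [frac_not] at h1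
    have h2 : 1 / (12 * s) * (3 * s ^ 2) = s / 4 := by field_simp; norm_num
    rw [h2] at h1
    set p := frac (fun g : Fin d → Bool => (∑ j, v j * sgn (g j)) ^ 2 < s / 2) with hp
    by_contra hcon
    push Not at hcon
    nlinarith

theorem PJ3_exp {d : ℕ} (v : Fin d → ℝ) (y : ℝ) :
    av (fun g : Fin d → Bool => Real.exp (y * ∑ j, v j * sgn (g j))) ≤
      Real.exp (y ^ 2 * sq v / 2) := by
  have h1 : av (fun g : Fin d → Bool => Real.exp (y * ∑ j, v j * sgn (g j))) =
      ∏ j, Real.cosh (y * v j) := by
    rw [← show ∏ j : Fin d, av (fun b : Bool => Real.exp (y * (v j * sgn b))) =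
        ∏ j, Real.cosh (y * v j) from ?_]
    · rw [← av_pi_prod (fun (j : Fin d) (b : Bool) => Real.exp (y * (v j * sgn b)))]
      apply av_congr
      intro g
      rw [Finset.mul_sum, Real.exp_sum]
    · apply Finset.prod_congr rfl
      intro j _
      rw [PJ1_bool, Real.cosh_eq]
      simp only [sgn]
      simp only [if_true, Bool.false_eq_true, if_false]
      congr 2
      · congr 1; ring
      · congr 1; ring
  rw [h1]
  calc ∏ j, Real.cosh (y * v j) ≤ ∏ j, Real.exp ((y * v j) ^ 2 / 2) := by
        apply Finset.prod_le_prod
        · intro j _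
          exact (Real.cosh_pos _).le
        · intro j _
          exact Real.cosh_le_exp_half_sq _
    _ = Real.exp (y ^ 2 * sq v / 2) := by
        rw [← Real.exp_sum]
        congr 1
        unfold sq
        rw [Finset.mul_sum, Finset.sum_div]
        apply Finset.sum_congr rfl
        intro j _
        ring

/-- J4 -/
theorem sgn_upper {d : ℕ} (v : Fin d → ℝ) (t : ℝ) (ht : 0 ≤ t) :
    frac (fun g : Fin d → Bool => t ^ 2 * sq v < (∑ j, v j * sgn (g j)) ^ 2) ≤
      2 * Real.exp (-(t ^ 2 / 2)) := by
  classical
  rcases (PJ3_sq_nonneg v).eq_or_lt with h0 | h0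
  · have hv : ∀ j, v j = 0 := by
      intro j
      unfold sq at h0
      have := (Finset.sum_eq_zero_iff_of_nonneg (fun i _ => sq_nonneg (v i))).1 h0.symm j
        (Finset.mem_univ j)
      exact pow_eq_zero_iff (two_ne_zero) |>.1 this
    have h1 : frac (fun g : Fin d → Bool => t ^ 2 * sq v < (∑ j, v j * sgn (g j)) ^ 2) ≤
        frac (fun _ : Fin d → Bool => False) := by
      apply frac_mono
      intro g hg
      rw [← h0] at hg
      simp [hv] at hg
    rw [frac_false] at h1
    exact h1.trans (by positivity)
  · set s := sq v with hs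
    set y := t / √s with hy
    have hsq : √s ^ 2 = s := Real.sq_sqrt h0.le
    have hsp : 0 < √s := Real.sqrt_pos.2 h0
    have hy2 : y ^ 2 * s = t ^ 2 := by
      rw [hy, div_pow, hsq]; field_simp
    have e1 := PJ3_exp v y
    have e2 := PJ3_exp v (-y)
    rw [← hs, hy2] at e1
    rw [← hs, neg_sq, hy2] at e2
    calc frac (fun g : Fin d → Bool => t ^ 2 * s < (∑ j, v j * sgn (g j)) ^ 2)
        ≤ av (fun g : Fin d → Bool => Real.exp (-t ^ 2) *
          (Real.exp (y * ∑ j, v j * sgn (g j)) + Real.exp (-y * ∑ j, v j * sgn (g j)))) := by
          rw [frac_eq_av]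
          apply av_mono
          intro g
          set z := (∑ j, v j * sgn (g j)) with hz
          by_cases hc : t ^ 2 * s < z ^ 2
          · rw [if_pos hc]
            have hyn : 0 ≤ y := by positivity
            have h1 : t ^ 2 ≤ y * |z| := by
              have h2 : t * √s ≤ |z| := by
                apply le_of_sq_le_sq _ (abs_nonneg z)
                rw [mul_pow, hsq, sq_abs]
                exact hc.le
              have h3 : y * (t * √s) = t ^ 2 := by
                rw [hy]; field_simp
              rw [← h3]
              exact mul_le_mul_of_nonneg_left h2 hyn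
            have h4 : 1 ≤ Real.exp (-t ^ 2) * Real.exp (y * |z|) := by
              rw [← Real.exp_add]
              apply Real.one_le_exp
              linarith
            refine h4.trans ?_
            apply mul_le_mul_of_nonneg_left _ (Real.exp_pos _).le
            rcases abs_cases z with ⟨hz1, _⟩ | ⟨hz1, _⟩
            · rw [hz1]
              have := Real.exp_pos (-y * z)
              linarith
            · rw [hz1]
              have := Real.exp_pos (y * z)
              have h5 : y * -z = -y * z := by ring
              rw [h5]
              linarith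
          · rw [if_neg hc]
            positivity
      _ = Real.exp (-t ^ 2) * (av (fun g : Fin d → Bool => Real.exp (y * ∑ j, v j * sgn (g j))) +
          av (fun g : Fin d → Bool => Real.exp (-y * ∑ j, v j * sgn (g j)))) := by
          rw [av_mul_left, av_add]
      _ ≤ Real.exp (-t ^ 2) * (Real.exp (t ^ 2 / 2) + Real.exp (t ^ 2 / 2)) := by
          gcongr
      _ = 2 * Real.exp (-(t ^ 2 / 2)) := by
          have : Real.exp (-t ^ 2) * Real.exp (t ^ 2 / 2) = Real.exp (-(t ^ 2 / 2)) := by
            rw [← Real.exp_add]; congr 1; ring
          linear_combination 2 * this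

end

end A56
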