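import Pool.Agent.Lib_helper50.A56.L.PA
import Pool.Agent.Lib_helper50.A56.ProbIface

/-! Block Q of the probability layer (helper47): the sequential union bound. -/

open Matrix Finset

namespace A56

noncomputable section

/-- The infinite string of a finite string. -/
def PQext {m : ℕ} (r : Fin m → Bool) (k : ℕ) : Bool := if h : k < m then r ⟨k, h⟩ else false

/-- The state after `i` steps as a function of an infinite string. -/
def PQst {X : Type} (len : ℕ → ℕ) (f : ℕ → X → (ℕ → Bool) → X) (x0 : X) (w : ℕ → Bool)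
    (i : ℕ) : X :=
  Nat.rec x0 (fun i x => f i x fun t => w ((∑ i' ∈ range i, len i') + t)) i

theorem PQst_succ {X : Type} (len : ℕ → ℕ) (f : ℕ → X → (ℕ → Bool) → X) (x0 : X)
    (w : ℕ → Bool) (i : ℕ) :
    PQst len f x0 w (i + 1) =
      f i (PQst len f x0 w i) (fun t => w ((∑ i' ∈ range i, len i') + t)) := rfl

theorem PQst_congr {X : Type} (len : ℕ → ℕ) (f : ℕ → X → (ℕ → Bool) → X) (x0 : X)
    (hf : ∀ i x w w', (∀ t < len i, w t = w' t) → f i x w = f i x w') (w w' : ℕ → Bool)
    (i : ℕ) (h : ∀ k < ∑ i' ∈ range i, len i', w k = w' k) :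
    PQst len f x0 w i = PQst len f x0 w' i := by
  induction i with
  | zero => rfl
  | succ i ih =>
    rw [PQst_succ, PQst_succ, ih fun k hk => h k (by rw [Finset.sum_range_succ]; omega)]
    apply hf
    intro t ht
    apply h
    rw [Finset.sum_range_succ]; omega

theorem PQext_append_lt {m n : ℕ} (a : Fin m → Bool) (b : Fin n → Bool) {k : ℕ} (hk : k < m) :
    PQext (Fin.append a b) k = PQext a k := by
  unfold PQext
  rw [dif_pos (by omega : k < m + n), dif_pos hk]
  have : (⟨k, by omega⟩ : Fin (m + n)) = Fin.castAdd n ⟨k, hk⟩ := rfl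
  rw [this, Fin.append_left]

theorem PQext_append_add {m n : ℕ} (a : Fin m → Bool) (b : Fin n → Bool) (k : ℕ) :
    PQext (Fin.append a b) (m + k) = PQext b k := by
  unfold PQext
  by_cases hk : k < n
  · rw [dif_pos (by omega : m + k < m + n), dif_pos hk]
    have : (⟨m + k, by omega⟩ : Fin (m + n)) = Fin.natAdd m ⟨k, hk⟩ := rfl
    rw [this, Fin.append_right]
  · rw [dif_neg (by omega), dif_neg hk]

theorem PQfrac_append {m n : ℕ} (P : (Fin (m + n) → Bool) → Prop) :
    frac P = frac (fun w : (Fin m → Bool) × (Fin n → Bool) => P (Fin.append w.1 w.2)) := by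
  rw [← frac_equiv (Fin.appendEquiv m n) P]
  rfl

theorem PQmain {X : Type} (len : ℕ → ℕ) (f : ℕ → X → (ℕ → Bool) → X)
    (Good : ℕ → X → Prop) (x0 : X) (δ : ℝ) (h0 : Good 0 x0)
    (hf : ∀ i x w w', (∀ t < len i, w t = w' t) → f i x w = f i x w') (I : ℕ)
    (hg : ∀ i < I, ∀ x, Good i x →
      frac (fun w : Fin (len i) → Bool =>
        ¬ Good (i + 1) (f i x fun t => if h : t < len i then w ⟨t, h⟩ else false)) ≤ δ)
    (hδ : 0 ≤ δ) :
    frac (fun r : Fin (∑ i' ∈ range I, len i') → Bool =>
      ¬ Good I (PQst len f x0 (PQext r) I)) ≤ I * δ := by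
  induction I with
  | zero =>
    refine (frac_mono (Q := fun _ => False) fun w hw => hw h0).trans ?_
    rw [frac_false]; simp
  | succ I ih =>
    have ih' := ih fun i hi => hg i (by omega)
    have hs : ∑ i' ∈ range (I + 1), len i' = (∑ i' ∈ range I, len i') + len I :=
      Finset.sum_range_succ _ _
    rw [hs, PQfrac_append]
    have h1 := frac_prod_le (Ω := Fin (∑ i' ∈ range I, len i') → Bool)
      (Ω' := Fin (len I) → Bool)
      (P := fun a => Good I (PQst len f x0 (PQext a) I))
      (Q := fun a b => Good (I + 1) (f I (PQst len f x0 (PQext a) I) (PQext b))) hδ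
      (fun a ha => hg I (by omega) _ ha)
    refine (frac_mono ?_).trans (h1.trans ?_)
    · intro w hw hw'
      apply hw
      rw [PQst_succ]
      rw [PQst_congr len f x0 hf _ (PQext w.1) I
        (fun k hk => PQext_append_lt w.1 w.2 hk)]
      have : (fun t => PQext (Fin.append w.1 w.2) ((∑ i' ∈ range I, len i') + t)) =
          PQext w.2 := by
        funext t
        exact PQext_append_add w.1 w.2 t
      rw [this]
      exact hw'.2
    · push_cast
      linarith

/-- Q: the sequential union bound. -/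
theorem seq : Seq := by
  intro X I m len f Good x0 δ h0 hf hg hm
  rcases Nat.eq_zero_or_pos I with hI | hI
  · subst hI
    refine (frac_mono (Q := fun _ => False) fun w hw => hw h0).trans ?_
    rw [frac_false]; simp
  have hδ : 0 ≤ δ := (frac_nonneg _).trans (hg 0 hI x0 h0)
  obtain ⟨n, rfl⟩ := Nat.exists_eq_add_of_le hm
  have h1 := PQmain len f Good x0 δ h0 hf I hg hδ
  have h2 : frac (fun r : Fin ((∑ i ∈ range I, len i) + n) → Bool =>
      ¬ Good I (PQst len f x0 (PQext r) I)) ≤ I * δ := by
    rw [PQfrac_append]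
    have h3 := frac_prod_le (Ω := Fin (∑ i' ∈ range I, len i') → Bool)
      (Ω' := Fin n → Bool)
      (P := fun a => Good I (PQst len f x0 (PQext a) I))
      (Q := fun _ _ => True) (δ := 0) le_rfl
      (fun a _ => by simp [frac_false])
    refine (frac_mono ?_).trans (h3.trans (by linarith))
    intro w hw hw'
    apply hw
    rw [PQst_congr len f x0 hf _ (PQext w.1) I
        (fun k hk => PQext_append_lt w.1 w.2 hk)]
    exact hw'.1
  exact h2

end

end A56
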