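import Pool.Agent.Lib_helper50.A56.L.LT

/-!
# MP_a55cb8, level layer: final form of the sizes under a head condition (helper78)
-/

open Matrix Finset

namespace A56

noncomputable section

/-- weights of a head: `0 ≤ h ≤ 1`, total at most `k`, scores at most `h + t / l` -/
structure HeadW {n : ℕ} (A : Matrix (Fin n) (Fin n) ℝ) (k t : ℝ) (h : Fin n → ℝ) : Prop where
  nonneg : ∀ i, 0 ≤ h i
  le_one : ∀ i, h i ≤ 1
  sum_le : ∑ i, h i ≤ k
  rho_le : ∀ l, 0 < l → ∀ i, rho A l i ≤ h i + t / l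

/-- the constant of the rates -/
def cR (M : ℕ) (u : ℝ) : ℝ := 8 * u ^ 10 * M ^ 3

/-- the part of the bound of the rates which is the same for all coordinates -/
def thR (M E : ℕ) (u t l : ℝ) : ℝ := cR M u * (t / l) + 5 * M ^ 3 * (1 / 4) ^ E

section
variable {n M E : ℕ} {u t l l' k : ℝ} {A : Matrix (Fin n) (Fin n) ℝ} {h g : Fin n → ℝ}

theorem cR_nonneg (hu : 0 ≤ u) : 0 ≤ cR M u := by unfold cR; positivity

theorem thR_nonneg (hu : 0 ≤ u) (ht : 0 ≤ t) (hl : 0 < l) : 0 ≤ thR M E u t l := by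
  unfold thR
  have := cR_nonneg (M := M) hu
  positivity

theorem pb_le (hu : 0 ≤ u) (hh : HeadW A k t h) (hl : 0 < l) (i : Fin n) :
    pb M E u A l i ≤ cR M u * h i + thR M E u t l := by
  have h1 := hh.rho_le l hl i
  have h2 : 8 * u ^ 10 * (M : ℝ) ^ 3 * rho A l i ≤ 8 * u ^ 10 * M ^ 3 * (h i + t / l) :=
    mul_le_mul_of_nonneg_left h1 (by positivity)
  unfold pb thR cR
  refine (min_le_right _ _).trans ?_
  linarith

theorem sum_pb_mul (hu : 0 ≤ u) (hh : HeadW A k t h) (hl : 0 < l) (x : Fin n → ℝ) {m : ℝ}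
    (hx : ∀ i, 0 ≤ x i) (hxm : ∀ i, x i ≤ m) (hm : 0 ≤ m) :
    ∑ i, pb M E u A l i * x i ≤ cR M u * (k * m) + thR M E u t l * ∑ i, x i := by
  have hc := cR_nonneg (M := M) hu
  calc ∑ i, pb M E u A l i * x i ≤ ∑ i, (cR M u * (h i * m) + thR M E u t l * x i) := by
        refine Finset.sum_le_sum fun i _ => ?_
        have h1 := mul_le_mul_of_nonneg_right (pb_le (M := M) (E := E) hu hh hl i) (hx i)
        have h2 : h i * x i ≤ h i * m := mul_le_mul_of_nonneg_left (hxm i) (hh.nonneg i)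
        have h3 : cR M u * (h i * x i) ≤ cR M u * (h i * m) := mul_le_mul_of_nonneg_left h2 hc
        nlinarith
    _ = cR M u * ((∑ i, h i) * m) + thR M E u t l * ∑ i, x i := by
        rw [Finset.sum_add_distrib, ← Finset.mul_sum, ← Finset.mul_sum, Finset.sum_mul]
    _ ≤ _ := by
        have h4 : (∑ i, h i) * m ≤ k * m := mul_le_mul_of_nonneg_right hh.sum_le hm
        have := mul_le_mul_of_nonneg_left h4 hc
        linarith

theorem sum_pb (hu : 0 ≤ u) (hh : HeadW A k t h) (hl : 0 < l) :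
    ∑ i, pb M E u A l i ≤ cR M u * k + thR M E u t l * n := by
  have := sum_pb_mul (M := M) (E := E) hu hh hl (fun _ => 1) (m := 1) (fun _ => by norm_num)
    (fun _ => le_rfl) (by norm_num)
  simpa using this

theorem sum_pairs (hu : 0 ≤ u) (ht : 0 ≤ t) (hh : HeadW A k t h) (hg : HeadW Aᵀ k t g)
    (hl : 0 < l) (hl' : 0 < l') (hk : 0 ≤ k) (P : Finset (Fin n × Fin n)) :
    ∑ p ∈ P, pb M E u A l p.1 * pb M E u Aᵀ l' p.2 ≤
      cR M u ^ 2 * k ^ 2 + (cR M u * thR M E u t l' + thR M E u t l) * P.card := by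
  have hc := cR_nonneg (M := M) hu
  have ht1 := thR_nonneg (M := M) (E := E) hu ht hl
  have ht2 := thR_nonneg (M := M) (E := E) hu ht hl'
  calc ∑ p ∈ P, pb M E u A l p.1 * pb M E u Aᵀ l' p.2
      ≤ ∑ p ∈ P, (cR M u ^ 2 * (h p.1 * g p.2) +
          (cR M u * thR M E u t l' + thR M E u t l)) := by
        refine Finset.sum_le_sum fun p _ => ?_
        have a1 := pb_le (M := M) (E := E) hu hh hl p.1
        have a2 := pb_le (M := M) (E := E) hu hg hl' p.2
        have a3 := pb_nonneg M E hu Aᵀ hl' p.2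
        have a4 := pb_le_one M E u Aᵀ l' p.2
        have a5 := hh.nonneg p.1
        have a6 := hh.le_one p.1
        have a7 := hg.nonneg p.2
        calc pb M E u A l p.1 * pb M E u Aᵀ l' p.2
            ≤ (cR M u * h p.1 + thR M E u t l) * pb M E u Aᵀ l' p.2 :=
              mul_le_mul_of_nonneg_right a1 a3
          _ = cR M u * h p.1 * pb M E u Aᵀ l' p.2 + thR M E u t l * pb M E u Aᵀ l' p.2 := by ring
          _ ≤ cR M u * h p.1 * (cR M u * g p.2 + thR M E u t l') + thR M E u t l * 1 := by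
              gcongr
          _ = cR M u ^ 2 * (h p.1 * g p.2) + (cR M u * h p.1 * thR M E u t l' +
                thR M E u t l) := by ring
          _ ≤ _ := by
              have : cR M u * h p.1 * thR M E u t l' ≤ cR M u * 1 * thR M E u t l' := by
                gcongr
              linarith
    _ = cR M u ^ 2 * ∑ p ∈ P, h p.1 * g p.2 +
          (cR M u * thR M E u t l' + thR M E u t l) * P.card := by
        rw [Finset.sum_add_distrib, ← Finset.mul_sum, Finset.sum_const, nsmul_eq_mul]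
        ring
    _ ≤ _ := by
        have h1 : ∑ p ∈ P, h p.1 * g p.2 ≤ ∑ p : Fin n × Fin n, h p.1 * g p.2 :=
          Finset.sum_le_univ_sum_of_nonneg fun p => mul_nonneg (hh.nonneg _) (hg.nonneg _)
        have h2 : ∑ p : Fin n × Fin n, h p.1 * g p.2 = (∑ i, h i) * ∑ i, g i := by
          rw [Fintype.sum_prod_type, Finset.sum_mul_sum]
        have h3 : (∑ i, h i) * ∑ i, g i ≤ k * k :=
          mul_le_mul hh.sum_le hg.sum_le (Finset.sum_nonneg fun i _ => hg.nonneg i) hk
        have h4 : ∑ p ∈ P, h p.1 * g p.2 ≤ k ^ 2 := by nlinarith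
        have := mul_le_mul_of_nonneg_left h4 (sq_nonneg (cR M u))
        linarith

open Classical in
theorem sum_heavy (hu : 0 ≤ u) (hh : HeadW A k t h) (hl : 0 < l) (H : ℕ)
    (hH : 2 * thR M E u t l ≤ (1 / 4) ^ H) :
    ∑ i ∈ univ.filter (fun i => (1 / 4) ^ H < pb M E u A l i), pb M E u A l i ≤
      2 * cR M u * k := by
  have hc := cR_nonneg (M := M) hu
  calc ∑ i ∈ univ.filter (fun i => (1 / 4) ^ H < pb M E u A l i), pb M E u A l i
      ≤ ∑ i ∈ univ.filter (fun i => (1 / 4) ^ H < pb M E u A l i), 2 * cR M u * h i := by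
        refine Finset.sum_le_sum fun i hi => ?_
        have h1 := (Finset.mem_filter.1 hi).2
        have h2 := pb_le (M := M) (E := E) hu hh hl i
        nlinarith
    _ ≤ ∑ i, 2 * cR M u * h i :=
        Finset.sum_le_univ_sum_of_nonneg fun i => by
          have := hh.nonneg i
          positivity
    _ = 2 * cR M u * ∑ i, h i := by rw [Finset.mul_sum]
    _ ≤ _ := mul_le_mul_of_nonneg_left hh.sum_le (by positivity)

end

end

end A56
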