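import Pool.Agent.Lib_helper50.A56.L.LG

/-!
# MP_a55cb8, level layer: the level theorem in final form (helper78)
-/

open Matrix Finset

namespace A56

noncomputable section

theorem LG_num3 {L T k x : ℝ} (hL : 1000 ≤ L) (hT : 1 ≤ T) (hk : 1 ≤ k) (hx : 0 ≤ x) :
    8 * L ^ 118 * (T * k) ^ 2 + L * (8 * L ^ 118 * x + 5 * L ^ 18) ≤
      L ^ 240 * T ^ 2 * (k ^ 2 + x) := by
  have hL1 : 1 ≤ L := by linarith
  have hT0 : 0 ≤ T := by linarith
  refine le_trans ?_ (LG_num2 hL hT hk hx le_rfl hx)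
  have h1 : 1 ≤ L ^ 118 := one_le_pow₀ hL1
  have h2 : L ^ 1 ≤ L ^ 118 := pow_le_pow_right₀ hL1 (by norm_num)
  rw [pow_one] at h2
  generalize L ^ 118 = a at *
  have h3 : 0 ≤ L ^ 18 := by positivity
  generalize L ^ 18 = b at *
  have h4 : 0 ≤ (T * k) ^ 2 := sq_nonneg _
  generalize (T * k) ^ 2 = c at *
  have h5 : 0 ≤ 8 * a * x + 5 * b := by positivity
  have h6 : 8 * a * c ≤ (8 * a) ^ 2 * c := by
    refine mul_le_mul_of_nonneg_right ?_ h4
    nlinarith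
  have h7 : L * (8 * a * x + 5 * b) ≤ 8 * a * (8 * a * x + 5 * b) :=
    mul_le_mul_of_nonneg_right (by linarith) h5
  nlinarith

theorem LG_triv {X Y W k : ℝ} (h : X ≤ Y) (hY : 0 ≤ Y) (hW : 1 ≤ W) (hk : 0 ≤ k) :
    X ≤ W * (k + 1 * Y) := by nlinarith

theorem LG_trivL {X Y W L k : ℝ} (h : X ≤ L * Y) (hY : 0 ≤ Y) (hL : 0 ≤ L) (hW : L ≤ W)
    (hk : 0 ≤ k) : X ≤ W * (k + 1 * Y) := by
  have h1 : L * Y ≤ W * Y := mul_le_mul_of_nonneg_right hW hY
  have h2 : 0 ≤ W * k := mul_nonneg (hL.trans hW) hk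
  nlinarith

theorem etaL_anti {sg lam lam2 : ℝ} (hsg : 0 ≤ sg) (h0 : 0 < lam2) (h : lam2 ≤ lam) :
    etaL sg lam ≤ etaL sg lam2 := by
  unfold etaL
  exact min_le_min le_rfl (div_le_div_of_nonneg_left hsg h0 h)

theorem etaL_nonneg {sg lam : ℝ} (hsg : 0 ≤ sg) (h0 : 0 < lam) : 0 ≤ etaL sg lam := by
  unfold etaL
  exact le_min zero_le_one (by positivity)

open Classical in
theorem sizeG_of {n l a k m1 m2 kk h : ℕ} {fl : Bool} {sg l' l'' : ℝ} {A : Matrix (Fin n) (Fin n) ℝ}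
    {P : Finset (Fin n × Fin n)} {s : Fin n → ℝ} {D : LD n}
    (hl : 1000 ≤ l) (hn : n ≤ 2 ^ l) (hk : 1 ≤ k) (hkk : kk ≤ l ^ a * k) (hm1 : m1 ≤ l ^ a * k)
    (hm2 : m2 ≤ l ^ a * k) (hsg : 0 ≤ sg) (hl'' : 0 < l'') (hl1 : l'' ≤ l')
    {hw gw : Fin n → ℝ} (hh : HeadW A kk sg hw) (hg : HeadW Aᵀ kk sg gw)
    (hS : GoodSize (l ^ 6) l ((l : ℝ) ^ 10) (1 / (l : ℝ) ^ 5) A l' l''
      ((l : ℝ) ^ (245 + 2 * a) * ((k : ℝ) ^ 2 + etaL sg l' * P.card)) P
      (fun i => ((min (l * rowP P i) m1 : ℕ) : ℝ)) (fun c => ((min (l * colP P c) m2 : ℕ) : ℝ))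
      h fl s D) :
    SizeG l a k m1 m2 h fl sg l' l'' A P s D := by
  have hL : (1000 : ℝ) ≤ l := by exact_mod_cast hl
  have hL0 : (0 : ℝ) < l := by linarith
  have hL1 : (1 : ℝ) ≤ l := by linarith
  have hl' : 0 < l' := lt_of_lt_of_le hl'' hl1
  have hu : (0 : ℝ) ≤ (l : ℝ) ^ 10 := by positivity
  have hT : (1 : ℝ) ≤ (l : ℝ) ^ a := one_le_pow₀ hL1
  have hkR : (1 : ℝ) ≤ k := by exact_mod_cast hk
  have hkkR : (kk : ℝ) ≤ (l : ℝ) ^ a * k := by exact_mod_cast hkk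
  have hm1R : (m1 : ℝ) ≤ (l : ℝ) ^ a * k := by exact_mod_cast hm1
  have hm2R : (m2 : ℝ) ≤ (l : ℝ) ^ a * k := by exact_mod_cast hm2
  have hN0 : (0 : ℝ) ≤ P.card := Nat.cast_nonneg _
  have hn0 : (0 : ℝ) ≤ n := Nat.cast_nonneg _
  have hη0 := etaL_nonneg hsg hl'
  have hη0'' := etaL_nonneg hsg hl''
  have hηm := etaL_anti hsg hl'' hl1
  have hd1 : 1 / (1 / (l : ℝ) ^ 5) = (l : ℝ) ^ 5 := one_div_one_div _
  have hd2 : 1 / (1 / (l : ℝ) ^ 5) ^ 2 = (l : ℝ) ^ 10 := by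
    rw [div_pow, one_pow, one_div_one_div]; ring
  have hc : cR (l ^ 6) ((l : ℝ) ^ 10) = 8 * (l : ℝ) ^ 118 := cR_eq l
  have hp0 : ∀ i, 0 ≤ pb (l ^ 6) l ((l : ℝ) ^ 10) A l' i := fun i => pb_nonneg _ _ hu A hl' i
  have hq0 : ∀ i, 0 ≤ pb (l ^ 6) l ((l : ℝ) ^ 10) Aᵀ l' i := fun i => pb_nonneg _ _ hu Aᵀ hl' i
  -- exponents
  have e1 : (l : ℝ) ^ (130 + a) = (l : ℝ) ^ 130 * (l : ℝ) ^ a := pow_add _ _ _
  have e2 : (l : ℝ) ^ (250 + 2 * a) = (l : ℝ) ^ 250 * ((l : ℝ) ^ a) ^ 2 := by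
    rw [pow_add, mul_comm 2 a, pow_mul]
  have e3 : (l : ℝ) ^ (245 + 2 * a) = (l : ℝ) ^ 245 * ((l : ℝ) ^ a) ^ 2 := by
    rw [pow_add, mul_comm 2 a, pow_mul]
  have w1 : (1 : ℝ) ≤ (l : ℝ) ^ (130 + a) := one_le_pow₀ hL1
  have w2 : (1 : ℝ) ≤ (l : ℝ) ^ (250 + 2 * a) := one_le_pow₀ hL1
  have w2' : (l : ℝ) ≤ (l : ℝ) ^ (250 + 2 * a) := by
    have : (l : ℝ) ^ 1 ≤ (l : ℝ) ^ (250 + 2 * a) := pow_le_pow_right₀ hL1 (by omega)
    rwa [pow_one] at this
  have w3 : (1 : ℝ) ≤ (l : ℝ) ^ (245 + 2 * a) := one_le_pow₀ hL1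
  have hk2 : (0 : ℝ) ≤ (k : ℝ) ^ 2 := by positivity
  have hcpos : 0 ≤ 8 * (l : ℝ) ^ 118 := by positivity
  -- the two cases
  have hcase : sg / l' ≤ 1 ∨ etaL sg l' = 1 := by
    rcases le_total (sg / l') 1 with h1 | h1
    · left; exact h1
    · right; exact min_eq_left h1
  have hcase'' : sg / l'' ≤ 1 ∨ etaL sg l'' = 1 := by
    rcases le_total (sg / l'') 1 with h1 | h1
    · left; exact h1
    · right; exact min_eq_left h1
  have hmono : sg / l'' ≤ 1 → sg / l' ≤ 1 := fun h1 =>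
    (div_le_div_of_nonneg_left hsg hl'' hl1).trans h1
  have dims : ∀ (B : Matrix (Fin n) (Fin n) ℝ) (w : Fin n → ℝ), HeadW B kk sg w →
      sg / l' ≤ 1 → (l : ℝ) ^ 5 * ∑ i, pb (l ^ 6) l ((l : ℝ) ^ 10) B l' i ≤
        (l : ℝ) ^ (130 + a) * (k + etaL sg l' * n) := by
    intro B w hB h1
    have h2 := sum_pb (M := l ^ 6) (E := l) hu hB hl'
    rw [hc] at h2
    have h3 := thR_mul_le (l := l) h1 (quarter_n hn)
    rw [e1]
    refine le_trans ?_ (LG_num1 hL hT hkR (mul_nonneg hη0 hn0))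
    refine mul_le_mul_of_nonneg_left (h2.trans (add_le_add ?_ h3)) (by positivity)
    exact mul_le_mul_of_nonneg_left hkkR hcpos
  have rows' : ∀ (B : Matrix (Fin n) (Fin n) ℝ) (w : Fin n → ℝ), HeadW B kk sg w →
      sg / l' ≤ 1 → ∀ (x : Fin n → ℝ) (m : ℕ), (m : ℝ) ≤ (l : ℝ) ^ a * k → (∀ i, 0 ≤ x i) →
      (∀ i, x i ≤ m) → ∑ i, x i ≤ l * P.card →
      (l : ℝ) ^ 5 * ∑ i, pb (l ^ 6) l ((l : ℝ) ^ 10) B l' i * x i ≤
        (l : ℝ) ^ (250 + 2 * a) * ((k : ℝ) ^ 2 + etaL sg l' * P.card) := by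
    intro B w hB h1 x m hm hx0 hxm hxs
    have h2 := sum_pb_mul (M := l ^ 6) (E := l) hu hB hl' x (m := (m : ℝ)) hx0 hxm
      (Nat.cast_nonneg _)
    rw [hc] at h2
    have h3 := thR_mul_le (l := l) h1 (quarter_N (P := P) hn)
    have hth := thR_nonneg (M := l ^ 6) (E := l) hu hsg hl'
    have h4 : thR (l ^ 6) l ((l : ℝ) ^ 10) sg l' * ∑ i, x i ≤
        l * (8 * (l : ℝ) ^ 118 * (etaL sg l' * P.card) + 5 * (l : ℝ) ^ 18) := by
      calc _ ≤ thR (l ^ 6) l ((l : ℝ) ^ 10) sg l' * (l * P.card) :=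
            mul_le_mul_of_nonneg_left hxs hth
        _ = l * (thR (l ^ 6) l ((l : ℝ) ^ 10) sg l' * P.card) := by ring
        _ ≤ _ := mul_le_mul_of_nonneg_left h3 hL0.le
    have h5 : (kk : ℝ) * m ≤ ((l : ℝ) ^ a * k) ^ 2 := by
      rw [pow_two]
      exact mul_le_mul hkkR hm (Nat.cast_nonneg _) (by positivity)
    have h6 := LG_num3 hL hT hkR (mul_nonneg hη0 hN0)
    have h7 : ∑ i, pb (l ^ 6) l ((l : ℝ) ^ 10) B l' i * x i ≤
        (l : ℝ) ^ 240 * ((l : ℝ) ^ a) ^ 2 * ((k : ℝ) ^ 2 + etaL sg l' * P.card) := by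
      refine h2.trans (le_trans (add_le_add ?_ h4) h6)
      exact mul_le_mul_of_nonneg_left h5 hcpos
    have h8 : 0 ≤ ((l : ℝ) ^ a) ^ 2 * ((k : ℝ) ^ 2 + etaL sg l' * P.card) := by positivity
    rw [e2]
    calc _ ≤ (l : ℝ) ^ 5 * ((l : ℝ) ^ 240 * ((l : ℝ) ^ a) ^ 2 *
          ((k : ℝ) ^ 2 + etaL sg l' * P.card)) := mul_le_mul_of_nonneg_left h7 (by positivity)
      _ = (l : ℝ) ^ 245 * (((l : ℝ) ^ a) ^ 2 * ((k : ℝ) ^ 2 + etaL sg l' * P.card)) := by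
          rw [show (245 : ℕ) = 5 + 240 from rfl, pow_add]; ring
      _ ≤ (l : ℝ) ^ 250 * (((l : ℝ) ^ a) ^ 2 * ((k : ℝ) ^ 2 + etaL sg l' * P.card)) :=
          mul_le_mul_of_nonneg_right (pow_le_pow_right₀ hL1 (by norm_num)) h8
      _ = _ := by ring
  have heavy : ∀ (B : Matrix (Fin n) (Fin n) ℝ) (w : Fin n → ℝ), HeadW B kk sg w →
      (l : ℝ) ^ 120 * (etaL sg l' + (1 / 4) ^ l) ≤ (1 / 4) ^ h →
      (l : ℝ) ^ 5 * ∑ i ∈ univ.filter (fun i => (1 / 4) ^ h < pb (l ^ 6) l ((l : ℝ) ^ 10) B l' i),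
        pb (l ^ 6) l ((l : ℝ) ^ 10) B l' i ≤ (l : ℝ) ^ (130 + a) * k := by
    intro B w hB hcond
    have q0 : (0 : ℝ) ≤ (1 / 4) ^ l := by positivity
    have h1 : sg / l' ≤ 1 := by
      rcases hcase with h1 | h1
      · exact h1
      · exfalso
        rw [h1] at hcond
        have h2 : (1 / 4 : ℝ) ^ h ≤ 1 := pow_le_one₀ (by norm_num) (by norm_num)
        have h3 : (l : ℝ) ^ 1 ≤ (l : ℝ) ^ 120 := pow_le_pow_right₀ hL1 (by norm_num)
        rw [pow_one] at h3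
        nlinarith
    have he : etaL sg l' = sg / l' := min_eq_right h1
    have hth : 2 * thR (l ^ 6) l ((l : ℝ) ^ 10) sg l' ≤ (1 / 4) ^ h := by
      refine le_trans ?_ hcond
      unfold thR
      rw [hc, he]
      push_cast
      have c1 : 16 * (l : ℝ) ^ 118 ≤ (l : ℝ) ^ 120 := by
        have : (l : ℝ) ^ 120 = (l : ℝ) ^ 2 * (l : ℝ) ^ 118 := by
          rw [← pow_add]
        rw [this]
        refine mul_le_mul_of_nonneg_right ?_ (by positivity)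
        nlinarith
      have c2 : 10 * ((l : ℝ) ^ 6) ^ 3 ≤ (l : ℝ) ^ 120 := by
        have h2 : ((l : ℝ) ^ 6) ^ 3 ≤ (l : ℝ) ^ 118 := by
          rw [← pow_mul]
          exact pow_le_pow_right₀ hL1 (by norm_num)
        linarith
      have hsl : 0 ≤ sg / l' := by positivity
      have d1 := mul_le_mul_of_nonneg_right c1 hsl
      have d2 := mul_le_mul_of_nonneg_right c2 q0
      generalize (l : ℝ) ^ 118 = b1 at *
      generalize (l : ℝ) ^ 120 = b2 at *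
      generalize ((l : ℝ) ^ 6) ^ 3 = b3 at *
      nlinarith
    have h2 := sum_heavy (M := l ^ 6) (E := l) hu hB hl' h hth
    rw [hc] at h2
    have h3 : 2 * (8 * (l : ℝ) ^ 118) * kk ≤ 2 * (8 * (l : ℝ) ^ 118) * ((l : ℝ) ^ a * k) :=
      mul_le_mul_of_nonneg_left hkkR (by positivity)
    have h4 : 16 * (l : ℝ) ^ 123 ≤ (l : ℝ) ^ 130 := by
      have : (l : ℝ) ^ 130 = (l : ℝ) ^ 7 * (l : ℝ) ^ 123 := by
        rw [← pow_add]
      rw [this]
      refine mul_le_mul_of_nonneg_right ?_ (by positivity)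
      have h5 : (l : ℝ) ^ 1 ≤ (l : ℝ) ^ 7 := pow_le_pow_right₀ hL1 (by norm_num)
      rw [pow_one] at h5
      linarith
    rw [e1]
    calc _ ≤ (l : ℝ) ^ 5 * (2 * (8 * (l : ℝ) ^ 118) * ((l : ℝ) ^ a * k)) :=
          mul_le_mul_of_nonneg_left (h2.trans h3) (by positivity)
      _ = (16 * (l : ℝ) ^ 123) * ((l : ℝ) ^ a * k) := by
          rw [show (123 : ℕ) = 5 + 118 from rfl, pow_add]; ring
      _ ≤ (l : ℝ) ^ 130 * ((l : ℝ) ^ a * k) := mul_le_mul_of_nonneg_right h4 (by positivity)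
      _ = _ := by ring
  -- pairs
  have pr : ∀ lam2, 0 < lam2 → lam2 ≤ l' → sg / lam2 ≤ 1 →
      ∑ p ∈ P, pb (l ^ 6) l ((l : ℝ) ^ 10) A l' p.1 * pb (l ^ 6) l ((l : ℝ) ^ 10) Aᵀ lam2 p.2 ≤
        (l : ℝ) ^ 240 * ((l : ℝ) ^ a) ^ 2 * ((k : ℝ) ^ 2 + etaL sg lam2 * P.card) := by
    intro lam2 h0 hle h1
    have h1' : sg / l' ≤ 1 := (div_le_div_of_nonneg_left hsg h0 hle).trans h1
    have h2 := sum_pairs (M := l ^ 6) (E := l) hu hsg hh hg hl' h0 (Nat.cast_nonneg kk) P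
    rw [hc] at h2
    have h3 := thR_mul_le (l := l) h1 (quarter_N (P := P) hn)
    have h4 := thR_mul_le (l := l) h1' (quarter_N (P := P) hn)
    have h5 := LG_num2 hL hT hkR (mul_nonneg (etaL_nonneg hsg h0) hN0) (mul_nonneg hη0 hN0)
      (mul_le_mul_of_nonneg_right (etaL_anti hsg h0 hle) hN0)
    refine h2.trans (le_trans ?_ h5)
    have h6 : (8 * (l : ℝ) ^ 118) ^ 2 * (kk : ℝ) ^ 2 ≤
        (8 * (l : ℝ) ^ 118) ^ 2 * ((l : ℝ) ^ a * k) ^ 2 :=
      mul_le_mul_of_nonneg_left (pow_le_pow_left₀ (Nat.cast_nonneg _) hkkR 2) (by positivity)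
    refine add_le_add h6 ?_
    rw [add_mul, mul_assoc (8 * (l : ℝ) ^ 118)]
    exact add_le_add (mul_le_mul_of_nonneg_left h3 hcpos) h4
  refine ⟨?_, ?_, ?_, ?_, ?_, ?_, ?_, ?_, ?_, ?_, ?_, ?_, ?_, ?_, ?_⟩
  · -- nR
    have h1 := hS.nR
    rw [hd1] at h1
    rcases hcase with h2 | h2
    · exact h1.trans (dims A hw hh h2)
    · rw [h2]
      refine LG_triv ?_ hn0 w1 (by positivity)
      have : (univ.filter fun i => D.s i ≠ 0).card ≤ n := by
        refine (Finset.card_le_univ _).trans ?_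
        simp
      exact_mod_cast this
  · -- nC
    have h1 := hS.nC
    rw [hd1] at h1
    rcases hcase with h2 | h2
    · exact h1.trans (dims Aᵀ gw hg h2)
    · rw [h2]
      refine LG_triv ?_ hn0 w1 (by positivity)
      have : (univ.filter fun i => D.t i ≠ 0).card ≤ n := by
        refine (Finset.card_le_univ _).trans ?_
        simp
      exact_mod_cast this
  · -- pairs
    have h1 := hS.pairs
    rw [hd2] at h1
    rcases hcase with h2 | h2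
    · refine h1.trans ((mul_le_mul_of_nonneg_left (pr l' hl' le_rfl h2) (by positivity)).trans ?_)
      rw [e2]
      refine le_of_eq ?_
      rw [show (250 : ℕ) = 10 + 240 from rfl, pow_add]; ring
    · rw [h2]
      refine LG_triv ?_ hN0 w2 hk2
      exact_mod_cast Finset.card_filter_le _ _
  · -- pairs0
    have h1 := hS.pairs0
    rw [hd1] at h1
    refine h1.trans (le_of_eq ?_)
    rw [e2, e3, show (250 : ℕ) = 5 + 245 from rfl, pow_add]; ring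
  · -- rows
    have h1 := hS.aR
    rw [hd1] at h1
    rcases hcase with h2 | h2
    · exact h1.trans (rows' A hw hh h2 _ m1 hm1R (fun i => Nat.cast_nonneg _)
        (fun i => by exact_mod_cast min_le_right _ _) (sum_minR l m1))
    · rw [h2]
      refine LG_trivL ?_ hN0 hL0.le w2' hk2
      refine le_trans ?_ (sum_minR l m1)
      exact Finset.sum_le_univ_sum_of_nonneg fun i => Nat.cast_nonneg _
  · -- cols
    have h1 := hS.bC
    rw [hd1] at h1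
    rcases hcase with h2 | h2
    · exact h1.trans (rows' Aᵀ gw hg h2 _ m2 hm2R (fun i => Nat.cast_nonneg _)
        (fun i => by exact_mod_cast min_le_right _ _) (sum_minC l m2))
    · rw [h2]
      refine LG_trivL ?_ hN0 hL0.le w2' hk2
      refine le_trans ?_ (sum_minC l m2)
      exact Finset.sum_le_univ_sum_of_nonneg fun i => Nat.cast_nonneg _
  · -- next
    have h1 := hS.carry
    rw [hd1] at h1
    unfold NextL
    rcases hcase'' with h2 | h2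
    · refine h1.trans ((mul_le_mul_of_nonneg_left (pr l'' hl'' hl1 h2) (by positivity)).trans ?_)
      rw [e3]
      refine le_of_eq ?_
      rw [show (245 : ℕ) = 5 + 240 from rfl, pow_add]; ring
    · rw [h2]
      refine LG_triv ?_ hN0 w3 hk2
      calc ∑ p ∈ P.filter (fun p => D.s p.1 ≠ 0), pB l Aᵀ l'' p.2
          ≤ ∑ p ∈ P.filter (fun p => D.s p.1 ≠ 0), (1 : ℝ) :=
            Finset.sum_le_sum fun p _ => pb_le_one _ _ _ _ _ _
        _ = ((P.filter (fun p => D.s p.1 ≠ 0)).card : ℝ) := by simp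
        _ ≤ P.card := by exact_mod_cast Finset.card_filter_le _ _
  · -- heavyR
    intro hcond
    have h1 := hS.heavyR
    rw [hd1] at h1
    exact h1.trans (heavy A hw hh hcond)
  · -- heavyC
    intro hcond
    have h1 := hS.heavyC
    rw [hd1] at h1
    exact h1.trans (heavy Aᵀ gw hg hcond)
  · -- light
    have h1 := hS.light
    rw [hd2] at h1
    refine h1.trans (le_of_eq ?_)
    ring
  · -- lightR
    have h1 := hS.lightR
    rw [hd1] at h1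
    refine h1.trans ?_
    calc (l : ℝ) ^ 5 * ((1 / 4) ^ h * ∑ i, ((min (l * rowP P i) m1 : ℕ) : ℝ))
        ≤ (l : ℝ) ^ 5 * ((1 / 4) ^ h * (l * P.card)) := by
          refine mul_le_mul_of_nonneg_left (mul_le_mul_of_nonneg_left (sum_minR l m1) ?_) ?_ <;>
            positivity
      _ = _ := by ring
  · -- lightC
    have h1 := hS.lightC
    rw [hd1] at h1
    refine h1.trans ?_
    calc (l : ℝ) ^ 5 * ((1 / 4) ^ h * ∑ i, ((min (l * colP P i) m2 : ℕ) : ℝ))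
        ≤ (l : ℝ) ^ 5 * ((1 / 4) ^ h * (l * P.card)) := by
          refine mul_le_mul_of_nonneg_left (mul_le_mul_of_nonneg_left (sum_minC l m2) ?_) ?_ <;>
            positivity
      _ = _ := by ring
  · -- cntR
    intro hfl
    have h1 := hS.cntR hfl
    rw [hd1] at h1
    refine h1.trans (le_of_eq ?_)
    ring
  · -- cntC
    intro hfl
    have h1 := hS.cntC hfl
    rw [hd1] at h1
    refine h1.trans (le_of_eq ?_)
    ring
  · -- light2
    intro hfl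
    have h1 := hS.light2 hfl
    rw [hd2] at h1
    refine h1.trans (le_of_eq ?_)
    ring

end

end A56
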