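import Pool.Agent.Lib_helper50.A56.L.LH

/-!
# MP_a55cb8, level layer: the level theorem with fixed parameters (helper78)
-/

open Matrix Finset

namespace A56

noncomputable section

theorem LI_log2 {n l : ℕ} (hn : n ≤ 2 ^ l) : Nat.log2 n ≤ l := by
  rcases Nat.eq_zero_or_pos n with h | h
  · subst h
    simp
  · have h1 : Nat.log2 n < l + 1 := by
      rw [Nat.log2_lt (by omega)]
      refine lt_of_le_of_lt hn ?_
      exact Nat.pow_lt_pow_right (by norm_num) (by omega)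
    omega

section
variable {n l : ℕ}

theorem LI_hM (hl : 1000 ≤ l) (hn : n ≤ 2 ^ l) :
    50 * ((Nat.log2 n : ℝ) + 2 + 1 / (1 / (l : ℝ) ^ 5)) ≤ ((l ^ 6 : ℕ) : ℝ) := by
  rw [one_div_one_div]
  have hL : (1000 : ℝ) ≤ l := by exact_mod_cast hl
  have h1 : (Nat.log2 n : ℝ) ≤ l := by exact_mod_cast LI_log2 hn
  have h2 : (l : ℝ) ^ 1 ≤ (l : ℝ) ^ 5 := pow_le_pow_right₀ (by linarith) (by norm_num)
  have h3 : (l : ℝ) ^ 6 = l * (l : ℝ) ^ 5 := by ring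
  push_cast
  rw [h3]
  rw [pow_one] at h2
  nlinarith

theorem LI_hu (hl : 1000 ≤ l) : 16 * (((l ^ 6 : ℕ) : ℝ)) ^ 3 ≤ ((l : ℝ) ^ 10) ^ 2 := by
  have hL : (1000 : ℝ) ≤ l := by exact_mod_cast hl
  push_cast
  have h3 : ((l : ℝ) ^ 10) ^ 2 = (l : ℝ) ^ 2 * ((l : ℝ) ^ 6) ^ 3 := by ring
  rw [h3]
  refine mul_le_mul_of_nonneg_right ?_ (by positivity)
  nlinarith

theorem LI_hu2 (hl : 1000 ≤ l) (hn : n ≤ 2 ^ l) :
    10 ^ 8 * ((Nat.log2 n : ℝ) + 2) / (1 / (l : ℝ) ^ 5) ≤ (l : ℝ) ^ 10 := by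
  have hL : (1000 : ℝ) ≤ l := by exact_mod_cast hl
  have h1 : (Nat.log2 n : ℝ) ≤ l := by exact_mod_cast LI_log2 hn
  rw [div_div_eq_mul_div, div_one]
  have h3 : (l : ℝ) ^ 10 = (l : ℝ) ^ 5 * (l : ℝ) ^ 5 := by ring
  rw [h3]
  refine mul_le_mul_of_nonneg_right ?_ (by positivity)
  have h4 : (1000 : ℝ) ^ 4 ≤ (l : ℝ) ^ 4 := pow_le_pow_left₀ (by norm_num) hL 4
  have h5 : (l : ℝ) ^ 5 = (l : ℝ) ^ 4 * l := by ring
  rw [h5]
  nlinarith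

theorem LI_hdE {d : ℝ} (hl : 1000 ≤ l) (hd : 0 ≤ d) (hd1 : d ≤ (1 / 4) ^ (l ^ 5)) :
    100 * ((l : ℝ) ^ 10) ^ 10 * d ^ 2 ≤ (1 / 4) ^ l := by
  have h1 : d ^ 2 ≤ ((1 / 4 : ℝ) ^ (l ^ 5)) ^ 2 := pow_le_pow_left₀ hd hd1 2
  have h2 : (l : ℝ) ≤ 2 ^ l := by exact_mod_cast (Nat.lt_two_pow_self (n := l)).le
  have h3 : ((l : ℝ) ^ 10) ^ 10 ≤ 4 ^ (50 * l) := by
    calc ((l : ℝ) ^ 10) ^ 10 = (l : ℝ) ^ 100 := by rw [← pow_mul]
      _ ≤ ((2 : ℝ) ^ l) ^ 100 := pow_le_pow_left₀ (Nat.cast_nonneg _) h2 100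
      _ = 4 ^ (50 * l) := by
          rw [← pow_mul, show (4 : ℝ) = 2 ^ 2 by norm_num, ← pow_mul]
          congr 1
          ring
  have h4 : (100 : ℝ) ≤ 4 ^ 4 := by norm_num
  have h5 : 4 + 50 * l + l ≤ 2 * l ^ 5 := by
    have h6 : l * 1000 ≤ l ^ 5 := by
      calc l * 1000 ≤ l * l ^ 4 := Nat.mul_le_mul_left l (by
            calc 1000 ≤ l := hl
              _ = l ^ 1 := (pow_one l).symm
              _ ≤ l ^ 4 := Nat.pow_le_pow_right (by omega) (by norm_num))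
        _ = l ^ 5 := by ring
    omega
  have h7 : (1 / 4 : ℝ) ^ (2 * l ^ 5) ≤ (1 / 4) ^ (4 + 50 * l + l) :=
    pow_le_pow_of_le_one (by norm_num) (by norm_num) h5
  calc 100 * ((l : ℝ) ^ 10) ^ 10 * d ^ 2 ≤ 4 ^ 4 * 4 ^ (50 * l) * (1 / 4) ^ (4 + 50 * l + l) := by
        refine mul_le_mul (mul_le_mul h4 h3 (by positivity) (by positivity)) ?_ (by positivity)
          (by positivity)
        refine h1.trans ?_
        rw [← pow_mul, mul_comm (l ^ 5) 2]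
        exact h7
    _ = (1 / 4) ^ l := by
        rw [← pow_add, pow_add (1 / 4 : ℝ) (4 + 50 * l) l, ← mul_assoc, ← mul_pow]
        norm_num

end

/-- **The level theorem with fixed parameters.** -/
theorem level_size {n l a k m1 m2 kk : ℕ} (h : ℕ) (fl : Bool) (A Q Q1 Q2 : Matrix (Fin n) (Fin n) ℝ)
    (s : Fin n → ℝ) (l0 l' l'' sg d : ℝ) (P : Finset (Fin n × Fin n))
    (hl : 1000 ≤ l) (hn : n ≤ 2 ^ l) (hk : 1 ≤ k) (hkk : kk ≤ l ^ a * k) (hm1 : m1 ≤ l ^ a * k)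
    (hm2 : m2 ≤ l ^ a * k) (hsg : 0 ≤ sg) (hA : Head A kk sg)
    (hl'' : 0 < l'') (hl1 : l'' ≤ l') (hl2 : l' ≤ l0) (hd : 0 ≤ d) (hd1 : d ≤ (1 / 4) ^ (l ^ 5))
    (hQ : IsSol (gram A l0) Q d) (hQ1 : IsSol (gram A l') Q1 d) (hQ2 : IsSol (gram Aᵀ l') Q2 d)
    (hS : Valid (diagonal s) A l0)
    (hK : KillOK (diagonal s) A l0 l' (((l : ℝ) ^ 10) ^ 10) (((l : ℝ) ^ 10)⁻¹ ^ 5))
    (hN : NextL l a k sg l' A P s) :
    frac (fun g : LBits n (l ^ 6) (2 * l) =>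
      ¬ (GoodLevel (l ^ 6) l ((l : ℝ) ^ 10) A l0 l' l'' s
          (LD.next l ((l : ℝ) ^ 10) A Q Q1 Q2 l0 l' s g) ∧
        SizeG l a k m1 m2 h fl sg l' l'' A P s (LD.next l ((l : ℝ) ^ 10) A Q Q1 Q2 l0 l' s g))) ≤
      50 * (1 / (l : ℝ) ^ 5) := by
  classical
  have hL : (1000 : ℝ) ≤ l := by exact_mod_cast hl
  have hL0 : (0 : ℝ) < l := by linarith
  have hL1 : (1 : ℝ) ≤ l := by linarith
  obtain ⟨hw, hw1, hw2, hw3⟩ := rho_head A hsg hA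
  obtain ⟨gw, gw1, gw2, gw3⟩ := rho_head Aᵀ hsg (hA.transpose hsg)
  have hh : HeadW A kk sg hw := ⟨fun i => (hw1 i).1, fun i => (hw1 i).2, hw2, hw3⟩
  have hg : HeadW Aᵀ kk sg gw := ⟨fun i => (gw1 i).1, fun i => (gw1 i).2, gw2, gw3⟩
  have hδ : (0 : ℝ) < 1 / (l : ℝ) ^ 5 := by positivity
  have hδ1 : 1 / (l : ℝ) ^ 5 ≤ 1 := by
    rw [div_le_one (by positivity)]
    exact one_le_pow₀ hL1
  refine le_trans (frac_mono ?_) (level_full (M := l ^ 6) (E := l) (B := 2 * l) A Q Q1 Q2 s l0 l'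
    l'' (1 / (l : ℝ) ^ 5) ((l : ℝ) ^ 10) d _ hl'' hl1 hl2 hδ hδ1 (LI_hM hl hn) (LI_hu hl)
    (LI_hu2 hl hn) hd (LI_hdE hl hd hd1) le_rfl hQ hQ1 hQ2 hS hK P
    (fun i => ((min (l * rowP P i) m1 : ℕ) : ℝ)) (fun c => ((min (l * colP P c) m2 : ℕ) : ℝ))
    (fun i => Nat.cast_nonneg _) (fun i => Nat.cast_nonneg _) h fl hN)
  intro g hg1 hc
  exact hg1 ⟨hc.1, sizeG_of hl hn hk hkk hm1 hm2 hsg hl'' hl1 hh hg hc.2⟩

/-- The level theorem for the bits of a window. -/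
theorem level_window {n l a k m1 m2 kk W : ℕ} (h : ℕ) (fl : Bool) (A Q Q1 Q2 : Matrix (Fin n) (Fin n) ℝ)
    (s : Fin n → ℝ) (l0 l' l'' sg d : ℝ) (P : Finset (Fin n × Fin n))
    (hl : 1000 ≤ l) (hn : n ≤ 2 ^ l) (hk : 1 ≤ k) (hkk : kk ≤ l ^ a * k) (hm1 : m1 ≤ l ^ a * k)
    (hm2 : m2 ≤ l ^ a * k) (hsg : 0 ≤ sg) (hA : Head A kk sg)
    (hl'' : 0 < l'') (hl1 : l'' ≤ l') (hl2 : l' ≤ l0) (hd : 0 ≤ d) (hd1 : d ≤ (1 / 4) ^ (l ^ 5))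
    (hQ : IsSol (gram A l0) Q d) (hQ1 : IsSol (gram A l') Q1 d) (hQ2 : IsSol (gram Aᵀ l') Q2 d)
    (hS : Valid (diagonal s) A l0)
    (hK : KillOK (diagonal s) A l0 l' (((l : ℝ) ^ 10) ^ 10) (((l : ℝ) ^ 10)⁻¹ ^ 5))
    (hN : NextL l a k sg l' A P s) (hW : 6 * (l ^ 6 * n) + 2 * (n * (2 * l)) ≤ W) :
    frac (fun w : Fin W → Bool =>
      ¬ (GoodLevel (l ^ 6) l ((l : ℝ) ^ 10) A l0 l' l'' s
          (LD.next l ((l : ℝ) ^ 10) A Q Q1 Q2 l0 l' s (decode n (l ^ 6) (2 * l)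
            (fun t => if h : t < W then w ⟨t, h⟩ else false))) ∧
        SizeG l a k m1 m2 h fl sg l' l'' A P s (LD.next l ((l : ℝ) ^ 10) A Q Q1 Q2 l0 l' s
          (decode n (l ^ 6) (2 * l) (fun t => if h : t < W then w ⟨t, h⟩ else false))))) ≤
      50 * (1 / (l : ℝ) ^ 5) := by
  refine le_trans (le_of_eq ?_) (level_size h fl A Q Q1 Q2 s l0 l' l'' sg d P hl hn hk hkk hm1 hm2
    hsg hA hl'' hl1 hl2 hd hd1 hQ hQ1 hQ2 hS hK hN)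
  exact frac_decode n (l ^ 6) (2 * l) W hW (fun g => ¬ (GoodLevel (l ^ 6) l ((l : ℝ) ^ 10) A l0 l'
    l'' s (LD.next l ((l : ℝ) ^ 10) A Q Q1 Q2 l0 l' s g) ∧
      SizeG l a k m1 m2 h fl sg l' l'' A P s (LD.next l ((l : ℝ) ^ 10) A Q Q1 Q2 l0 l' s g)))

/-- the empty row sample has the property for the next level -/
theorem nextL_zero {n : ℕ} (l a k : ℕ) {sg lam : ℝ} (hsg : 0 ≤ sg) (hlam : 0 < lam)
    (A : Matrix (Fin n) (Fin n) ℝ) (P : Finset (Fin n × Fin n)) :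
    NextL l a k sg lam A P (fun _ => 0) := by
  classical
  unfold NextL
  have h1 := etaL_nonneg hsg hlam
  have : P.filter (fun p : Fin n × Fin n => (0 : ℝ) ≠ 0) = ∅ := by
    apply Finset.filter_false_of_mem
    intro p _ h
    exact h rfl
  rw [this, Finset.sum_empty]
  positivity

end

end A56
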