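import Pool.Agent.Lib_helper50.A56.L.LS

/-!
# MP_a55cb8, level layer: from the size inequalities of the samples to `GoodSize` (helper78)
-/

open Matrix Finset

namespace A56

noncomputable section

theorem pb_nonneg {n : ℕ} (M E : ℕ) {u : ℝ} (hu : 0 ≤ u) (A : Matrix (Fin n) (Fin n) ℝ) {l : ℝ}
    (hl : 0 < l) (i : Fin n) : 0 ≤ pb M E u A l i := by
  have := rho_nonneg A hl i
  unfold pb
  exact le_min (by norm_num) (by positivity)

theorem pb_le_one {n : ℕ} (M E : ℕ) (u : ℝ) (A : Matrix (Fin n) (Fin n) ℝ) (l : ℝ)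
    (i : Fin n) : pb M E u A l i ≤ 1 := min_le_left _ _

open Classical in
theorem goodSize_of {n : ℕ} {M E : ℕ} {u δ : ℝ} {A : Matrix (Fin n) (Fin n) ℝ}
    {l l' l'' X : ℝ} {P : Finset (Fin n × Fin n)} {a b : Fin n → ℝ} {h : ℕ} {fl : Bool}
    {s : Fin n → ℝ} {D : LD n} (hδ : 0 < δ) (hq'' : ∀ i, 0 ≤ pb M E u Aᵀ l'' i) (ha : ∀ i, 0 ≤ a i) (hb : ∀ i, 0 ≤ b i)
    (hG : GoodLevel M E u A l l' l'' s D)
    (hX : ∑ p ∈ P.filter (fun p => s p.1 ≠ 0), pb M E u Aᵀ l' p.2 ≤ X)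
    (hT : ∀ r, ∑ i, (if D.t i = 0 then 0 else phiT P b h fl s D.e D.f r i) ≤
      (1 / δ) * ∑ i, (1 / 4) ^ D.f i * phiT P b h fl s D.e D.f r i)
    (hS : ∀ r, ∑ i, (if D.s i = 0 then 0 else phiS P a h fl (pb M E u Aᵀ l'') D.e D.f D.t r i) ≤
      (1 / δ) * ∑ i, (1 / 4) ^ D.e i * phiS P a h fl (pb M E u Aᵀ l'') D.e D.f D.t r i) :
    GoodSize M E u δ A l' l'' X P a b h fl s D := by
  have hd : 0 ≤ 1 / δ := by positivity
  have hp : ∀ i, (1 / 4 : ℝ) ^ D.e i ≤ pb M E u A l' i := fun i =>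
    le_min (pow_le_one₀ (by norm_num) (by norm_num)) (hG.upperR i)
  have hq : ∀ i, (1 / 4 : ℝ) ^ D.f i ≤ pb M E u Aᵀ l' i := fun i =>
    le_min (pow_le_one₀ (by norm_num) (by norm_num)) (hG.upperC i)
  have hp0 : ∀ i, (0 : ℝ) ≤ (1 / 4) ^ D.e i := fun i => by positivity
  have hq0 : ∀ i, (0 : ℝ) ≤ (1 / 4) ^ D.f i := fun i => by positivity
  have hpb0 : ∀ i, 0 ≤ pb M E u A l' i := fun i => (hp0 i).trans (hp i)
  have hqb0 : ∀ i, 0 ≤ pb M E u Aᵀ l' i := fun i => (hq0 i).trans (hq i)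
  have hT' : ∀ r, ∑ i, (if D.t i ≠ 0 then (1 : ℝ) else 0) * phiT P b h fl s D.e D.f r i ≤
      (1 / δ) * ∑ i, (1 / 4) ^ D.f i * phiT P b h fl s D.e D.f r i := fun r => by
    rw [← LS_ite]; exact hT r
  have hS' : ∀ r, ∑ i, (if D.s i ≠ 0 then (1 : ℝ) else 0) *
        phiS P a h fl (pb M E u Aᵀ l'') D.e D.f D.t r i ≤
      (1 / δ) * ∑ i, (1 / 4) ^ D.e i * phiS P a h fl (pb M E u Aᵀ l'') D.e D.f D.t r i :=
    fun r => by rw [← LS_ite]; exact hS r
  have card_eq : ∀ (Q : Fin n → Prop) [DecidablePred Q], ((univ.filter fun i => Q i).card : ℝ) =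
      ∑ i, (if Q i then (1 : ℝ) else 0) := fun Q _ => by rw [Finset.sum_boole]
  have card_eqP : ∀ (Q : Fin n × Fin n → Prop) [DecidablePred Q],
      ((P.filter fun i => Q i).card : ℝ) =
      ∑ p ∈ P, (if Q p then (1 : ℝ) else 0) := fun Q _ => by rw [Finset.sum_boole]
  -- two consecutive sums over pairs
  refine ⟨?_, ?_, ?_, ?_, ?_, ?_, ?_, ?_, ?_, ?_, ?_, ?_, ?_, ?_, ?_⟩
  · -- nR
    rw [card_eq]
    have h0 := hS' 0
    simp only [phiS, Matrix.cons_val_zero, mul_one] at h0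
    refine le_trans (le_of_eq ?_)
      (h0.trans (mul_le_mul_of_nonneg_left (Finset.sum_le_sum fun i _ => hp i) hd))
    refine Finset.sum_congr rfl fun i _ => ?_
    by_cases h1 : D.s i = 0 <;> simp [h1]
  · -- nC
    rw [card_eq]
    have h0 := hT' 0
    simp only [phiT, Matrix.cons_val_zero, mul_one] at h0
    refine le_trans (le_of_eq ?_)
      (h0.trans (mul_le_mul_of_nonneg_left (Finset.sum_le_sum fun i _ => hq i) hd))
    refine Finset.sum_congr rfl fun i _ => ?_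
    by_cases h1 : D.t i = 0 <;> simp [h1]
  · -- pairs
    rw [card_eqP]
    have h1 := hS' 1
    simp only [phiS, Matrix.cons_val_one, Matrix.cons_val_zero] at h1
    rw [LS_fib1, LS_fib1 (G := fun i => (1 / 4 : ℝ) ^ D.e i)] at h1
    have h2 := hT' 2
    have e2 : ∀ i, phiT P b h fl s D.e D.f 2 i =
        ∑ p ∈ P.filter (fun p => p.2 = i), (1 / 4 : ℝ) ^ D.e p.1 := fun i => rfl
    simp only [e2] at h2
    rw [LS_fib2, LS_fib2 (G := fun i => (1 / 4 : ℝ) ^ D.f i)] at h2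
    have e1 : ∑ p ∈ P, (if D.s p.1 ≠ 0 ∧ D.t p.2 ≠ 0 then (1 : ℝ) else 0) =
        ∑ p ∈ P, (if D.s p.1 ≠ 0 then (1 : ℝ) else 0) * (if D.t p.2 ≠ 0 then (1 : ℝ) else 0) :=
      Finset.sum_congr rfl fun p _ => by
        by_cases h1 : D.s p.1 = 0 <;> by_cases h2 : D.t p.2 = 0 <;> simp [h1, h2]
    have e3 : ∑ p ∈ P, (1 / 4 : ℝ) ^ D.e p.1 * (if D.t p.2 ≠ 0 then (1 : ℝ) else 0) =
        ∑ p ∈ P, (if D.t p.2 ≠ 0 then (1 : ℝ) else 0) * (1 / 4 : ℝ) ^ D.e p.1 :=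
      Finset.sum_congr rfl fun p _ => mul_comm _ _
    rw [e1]
    rw [e3] at h1
    calc _ ≤ 1 / δ * ∑ p ∈ P, (if D.t p.2 ≠ 0 then (1 : ℝ) else 0) * (1 / 4 : ℝ) ^ D.e p.1 := h1
      _ ≤ 1 / δ * (1 / δ * ∑ p ∈ P, (1 / 4 : ℝ) ^ D.f p.2 * (1 / 4 : ℝ) ^ D.e p.1) :=
          mul_le_mul_of_nonneg_left h2 hd
      _ ≤ 1 / δ * (1 / δ * ∑ p ∈ P, pb M E u A l' p.1 * pb M E u Aᵀ l' p.2) := by
          refine mul_le_mul_of_nonneg_left (mul_le_mul_of_nonneg_left
            (Finset.sum_le_sum fun p _ => ?_) hd) hd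
          rw [mul_comm]
          exact mul_le_mul (hp _) (hq _) (hq0 _) (hpb0 _)
      _ = _ := by rw [← mul_assoc]; congr 1; field_simp
  · -- pairs0
    rw [card_eqP]
    have h1 := hT' 1
    simp only [phiT, Matrix.cons_val_one, Matrix.cons_val_zero] at h1
    rw [LS_fib2, LS_fib2 (G := fun i => (1 / 4 : ℝ) ^ D.f i)] at h1
    have e1 : ∑ p ∈ P, (if s p.1 ≠ 0 ∧ D.t p.2 ≠ 0 then (1 : ℝ) else 0) =
        ∑ p ∈ P, (if D.t p.2 ≠ 0 then (1 : ℝ) else 0) * (if s p.1 ≠ 0 then (1 : ℝ) else 0) :=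
      Finset.sum_congr rfl fun p _ => by
        by_cases h1 : s p.1 = 0 <;> by_cases h2 : D.t p.2 = 0 <;> simp [h1, h2]
    rw [e1]
    refine h1.trans (mul_le_mul_of_nonneg_left ?_ hd)
    refine le_trans ?_ hX
    rw [Finset.sum_filter]
    refine Finset.sum_le_sum fun p _ => ?_
    by_cases h1 : s p.1 = 0
    · simp [h1]
    · simp only [h1, ne_eq, not_false_eq_true, if_true, mul_one]
      exact hq _
  · -- carry
    have h1 := hS' 2
    have e2 : ∀ i, phiS P a h fl (pb M E u Aᵀ l'') D.e D.f D.t 2 i =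
        ∑ p ∈ P.filter (fun p => p.1 = i), pb M E u Aᵀ l'' p.2 := fun i => rfl
    simp only [e2] at h1
    rw [LS_fib1, LS_fib1 (G := fun i => (1 / 4 : ℝ) ^ D.e i)] at h1
    rw [Finset.sum_filter]
    refine le_trans (le_of_eq ?_) (h1.trans (mul_le_mul_of_nonneg_left
      (Finset.sum_le_sum fun p _ => ?_) hd))
    · refine Finset.sum_congr rfl fun p _ => ?_
      by_cases h1 : D.s p.1 = 0 <;> simp [h1]
    · exact mul_le_mul_of_nonneg_right (hp _) (hq'' _)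
  · -- aR
    have h1 := hS' 3
    have e2 : ∀ i, phiS P a h fl (pb M E u Aᵀ l'') D.e D.f D.t 3 i = a i := fun i => rfl
    simp only [e2] at h1
    rw [Finset.sum_filter]
    refine le_trans (le_of_eq ?_) (h1.trans (mul_le_mul_of_nonneg_left
      (Finset.sum_le_sum fun p _ => mul_le_mul_of_nonneg_right (hp _) (ha _)) hd))
    refine Finset.sum_congr rfl fun p _ => ?_
    by_cases h1 : D.s p = 0 <;> simp [h1]
  · -- bC
    have h1 := hT' 3
    have e2 : ∀ i, phiT P b h fl s D.e D.f 3 i = b i := fun i => rfl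
    simp only [e2] at h1
    rw [Finset.sum_filter]
    refine le_trans (le_of_eq ?_) (h1.trans (mul_le_mul_of_nonneg_left
      (Finset.sum_le_sum fun p _ => mul_le_mul_of_nonneg_right (hq _) (hb _)) hd))
    refine Finset.sum_congr rfl fun p _ => ?_
    by_cases h1 : D.t p = 0 <;> simp [h1]
  · -- heavyR
    have h1 := hS' 4
    have e2 : ∀ i, phiS P a h fl (pb M E u Aᵀ l'') D.e D.f D.t 4 i =
      if D.e i < h then 1 else 0 := fun i => rfl
    simp only [e2] at h1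
    rw [card_eq, Finset.sum_filter]
    refine le_trans (le_of_eq ?_) (h1.trans (mul_le_mul_of_nonneg_left
      (Finset.sum_le_sum fun p _ => ?_) hd))
    · refine Finset.sum_congr rfl fun p _ => ?_
      by_cases h1 : D.s p = 0 <;> by_cases h2 : D.e p < h <;> simp [h1, h2]
    · by_cases h2 : D.e p < h
      · have h3 : (1 / 4 : ℝ) ^ h < (1 / 4) ^ D.e p :=
          pow_lt_pow_right_of_lt_one₀ (by norm_num) (by norm_num) h2
        rw [if_pos h2, mul_one, if_pos (h3.trans_le (hp p))]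
        exact hp p
      · rw [if_neg h2, mul_zero]
        split
        · exact hpb0 p
        · exact le_rfl
  · -- heavyC
    have h1 := hT' 4
    have e2 : ∀ i, phiT P b h fl s D.e D.f 4 i =
      if D.f i < h then 1 else 0 := fun i => rfl
    simp only [e2] at h1
    rw [card_eq, Finset.sum_filter]
    refine le_trans (le_of_eq ?_) (h1.trans (mul_le_mul_of_nonneg_left
      (Finset.sum_le_sum fun p _ => ?_) hd))
    · refine Finset.sum_congr rfl fun p _ => ?_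
      by_cases h1 : D.t p = 0 <;> by_cases h2 : D.f p < h <;> simp [h1, h2]
    · by_cases h2 : D.f p < h
      · have h3 : (1 / 4 : ℝ) ^ h < (1 / 4) ^ D.f p :=
          pow_lt_pow_right_of_lt_one₀ (by norm_num) (by norm_num) h2
        rw [if_pos h2, mul_one, if_pos (h3.trans_le (hq p))]
        exact hq p
      · rw [if_neg h2, mul_zero]
        split
        · exact hqb0 p
        · exact le_rfl
  · -- light
    rw [card_eqP]
    have h1 := hS' 6
    have e1 : ∀ i, phiS P a h fl (pb M E u Aᵀ l'') D.e D.f D.t 6 i =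
        ∑ p ∈ P.filter (fun p => p.1 = i),
          (if D.t p.2 ≠ 0 ∧ (h ≤ D.e p.1 ∨ h ≤ D.f p.2) then (1 : ℝ) else 0) := fun i => rfl
    simp only [e1] at h1
    rw [LS_fib1, LS_fib1 (G := fun i => (1 / 4 : ℝ) ^ D.e i)] at h1
    have h2 := hT' 6
    have e2 : ∀ i, phiT P b h fl s D.e D.f 6 i =
        ∑ p ∈ P.filter (fun p => p.2 = i),
          (if h ≤ D.e p.1 ∨ h ≤ D.f p.2 then (1 / 4 : ℝ) ^ D.e p.1 else 0) := fun i => rfl
    simp only [e2] at h2
    rw [LS_fib2, LS_fib2 (G := fun i => (1 / 4 : ℝ) ^ D.f i)] at h2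
    have e3 : ∑ p ∈ P, (if D.s p.1 ≠ 0 ∧ D.t p.2 ≠ 0 ∧ (h ≤ D.e p.1 ∨ h ≤ D.f p.2)
          then (1 : ℝ) else 0) =
        ∑ p ∈ P, (if D.s p.1 ≠ 0 then (1 : ℝ) else 0) *
          (if D.t p.2 ≠ 0 ∧ (h ≤ D.e p.1 ∨ h ≤ D.f p.2) then (1 : ℝ) else 0) :=
      Finset.sum_congr rfl fun p _ => by
        by_cases h1 : D.s p.1 = 0 <;>
          by_cases h2 : (D.t p.2 ≠ 0 ∧ (h ≤ D.e p.1 ∨ h ≤ D.f p.2)) <;> simp [h1, h2]
    have e4 : ∑ p ∈ P, (1 / 4 : ℝ) ^ D.e p.1 *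
          (if D.t p.2 ≠ 0 ∧ (h ≤ D.e p.1 ∨ h ≤ D.f p.2) then (1 : ℝ) else 0) =
        ∑ p ∈ P, (if D.t p.2 ≠ 0 then (1 : ℝ) else 0) *
          (if h ≤ D.e p.1 ∨ h ≤ D.f p.2 then (1 / 4 : ℝ) ^ D.e p.1 else 0) :=
      Finset.sum_congr rfl fun p _ => by
        by_cases h1 : D.t p.2 = 0 <;>
          by_cases h2 : (h ≤ D.e p.1 ∨ h ≤ D.f p.2) <;> simp [h1, h2]
    rw [e3]
    rw [e4] at h1
    calc _ ≤ 1 / δ * _ := h1
      _ ≤ 1 / δ * (1 / δ * ∑ p ∈ P, (1 / 4 : ℝ) ^ D.f p.2 *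
          (if h ≤ D.e p.1 ∨ h ≤ D.f p.2 then (1 / 4 : ℝ) ^ D.e p.1 else 0)) :=
          mul_le_mul_of_nonneg_left h2 hd
      _ ≤ 1 / δ * (1 / δ * ∑ p ∈ P, (1 / 4 : ℝ) ^ h) := by
          refine mul_le_mul_of_nonneg_left (mul_le_mul_of_nonneg_left
            (Finset.sum_le_sum fun p _ => ?_) hd) hd
          have m1 : (1 / 4 : ℝ) ^ D.f p.2 ≤ 1 := pow_le_one₀ (by norm_num) (by norm_num)
          have m2 : (1 / 4 : ℝ) ^ D.e p.1 ≤ 1 := pow_le_one₀ (by norm_num) (by norm_num)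
          by_cases h3 : h ≤ D.e p.1 ∨ h ≤ D.f p.2
          · rw [if_pos h3]
            rcases h3 with h3 | h3
            · have h4 : (1 / 4 : ℝ) ^ D.e p.1 ≤ (1 / 4) ^ h :=
                pow_le_pow_of_le_one (by norm_num) (by norm_num) h3
              calc _ ≤ 1 * (1 / 4 : ℝ) ^ h := mul_le_mul m1 h4 (hp0 _) (by norm_num)
                _ = _ := one_mul _
            · have h4 : (1 / 4 : ℝ) ^ D.f p.2 ≤ (1 / 4) ^ h :=
                pow_le_pow_of_le_one (by norm_num) (by norm_num) h3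
              calc _ ≤ (1 / 4 : ℝ) ^ h * 1 := mul_le_mul h4 m2 (hp0 _) (by positivity)
                _ = _ := mul_one _
          · rw [if_neg h3, mul_zero]; positivity
      _ = _ := by
          rw [Finset.sum_const, nsmul_eq_mul, ← mul_assoc, mul_comm (P.card : ℝ)]
          congr 1; field_simp
  · -- lightR
    have h1 := hS' 5
    have e2 : ∀ i, phiS P a h fl (pb M E u Aᵀ l'') D.e D.f D.t 5 i =
      if h ≤ D.e i then a i else 0 := fun i => rfl
    simp only [e2] at h1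
    rw [Finset.sum_filter, Finset.mul_sum]
    refine le_trans (le_of_eq ?_) (h1.trans (mul_le_mul_of_nonneg_left
      (Finset.sum_le_sum fun p _ => ?_) hd))
    · refine Finset.sum_congr rfl fun p _ => ?_
      by_cases h1 : D.s p = 0 <;> by_cases h2 : h ≤ D.e p <;> simp [h1, h2]
    · by_cases h2 : h ≤ D.e p
      · rw [if_pos h2]
        exact mul_le_mul_of_nonneg_right
          (pow_le_pow_of_le_one (by norm_num) (by norm_num) h2) (ha _)
      · rw [if_neg h2, mul_zero]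
        exact mul_nonneg (by positivity) (ha _)
  · -- lightC
    have h1 := hT' 5
    have e2 : ∀ i, phiT P b h fl s D.e D.f 5 i =
      if h ≤ D.f i then b i else 0 := fun i => rfl
    simp only [e2] at h1
    rw [Finset.sum_filter, Finset.mul_sum]
    refine le_trans (le_of_eq ?_) (h1.trans (mul_le_mul_of_nonneg_left
      (Finset.sum_le_sum fun p _ => ?_) hd))
    · refine Finset.sum_congr rfl fun p _ => ?_
      by_cases h1 : D.t p = 0 <;> by_cases h2 : h ≤ D.f p <;> simp [h1, h2]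
    · by_cases h2 : h ≤ D.f p
      · rw [if_pos h2]
        exact mul_le_mul_of_nonneg_right
          (pow_le_pow_of_le_one (by norm_num) (by norm_num) h2) (hb _)
      · rw [if_neg h2, mul_zero]
        exact mul_nonneg (by positivity) (hb _)
  · -- cntR
    intro hfl
    have h1 := hS' 7
    have e2 : ∀ i, phiS P a h fl (pb M E u Aᵀ l'') D.e D.f D.t 7 i =
        if h ≤ D.e i then 1 else 0 := fun i => if_pos hfl
    simp only [e2] at h1
    rw [card_eq]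
    refine le_trans (le_of_eq ?_) (h1.trans ?_)
    · refine Finset.sum_congr rfl fun p _ => ?_
      by_cases h1 : D.s p = 0 <;> by_cases h2 : h ≤ D.e p <;> simp [h1, h2]
    · refine mul_le_mul_of_nonneg_left ?_ hd
      refine (Finset.sum_le_card_nsmul univ _ ((1 / 4 : ℝ) ^ h) fun p _ => ?_).trans
        (le_of_eq ?_)
      · by_cases h2 : h ≤ D.e p
        · rw [if_pos h2, mul_one]
          exact pow_le_pow_of_le_one (by norm_num) (by norm_num) h2
        · rw [if_neg h2, mul_zero]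
          positivity
      · rw [Finset.card_univ, Fintype.card_fin, nsmul_eq_mul, mul_comm]
  · -- cntC
    intro hfl
    have h1 := hT' 7
    have e2 : ∀ i, phiT P b h fl s D.e D.f 7 i =
        if h ≤ D.f i then 1 else 0 := fun i => if_pos hfl
    simp only [e2] at h1
    rw [card_eq]
    refine le_trans (le_of_eq ?_) (h1.trans ?_)
    · refine Finset.sum_congr rfl fun p _ => ?_
      by_cases h1 : D.t p = 0 <;> by_cases h2 : h ≤ D.f p <;> simp [h1, h2]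
    · refine mul_le_mul_of_nonneg_left ?_ hd
      refine (Finset.sum_le_card_nsmul univ _ ((1 / 4 : ℝ) ^ h) fun p _ => ?_).trans
        (le_of_eq ?_)
      · by_cases h2 : h ≤ D.f p
        · rw [if_pos h2, mul_one]
          exact pow_le_pow_of_le_one (by norm_num) (by norm_num) h2
        · rw [if_neg h2, mul_zero]
          positivity
      · rw [Finset.card_univ, Fintype.card_fin, nsmul_eq_mul, mul_comm]
  · -- light2
    intro hfl
    have hfl' : ¬ fl = true := by rw [hfl]; exact Bool.false_ne_true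
    rw [card_eqP]
    have h1 := hS' 7
    have e1 : ∀ i, phiS P a h fl (pb M E u Aᵀ l'') D.e D.f D.t 7 i =
        ∑ p ∈ P.filter (fun p => p.1 = i),
          (if D.t p.2 ≠ 0 ∧ h ≤ D.e p.1 ∧ h ≤ D.f p.2 then (1 : ℝ) else 0) := fun i => if_neg hfl'
    simp only [e1] at h1
    rw [LS_fib1, LS_fib1 (G := fun i => (1 / 4 : ℝ) ^ D.e i)] at h1
    have h2 := hT' 7
    have e2 : ∀ i, phiT P b h fl s D.e D.f 7 i =
        ∑ p ∈ P.filter (fun p => p.2 = i),
          (if h ≤ D.e p.1 ∧ h ≤ D.f p.2 then (1 / 4 : ℝ) ^ D.e p.1 else 0) := fun i => if_neg hfl'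
    simp only [e2] at h2
    rw [LS_fib2, LS_fib2 (G := fun i => (1 / 4 : ℝ) ^ D.f i)] at h2
    have e3 : ∑ p ∈ P, (if D.s p.1 ≠ 0 ∧ D.t p.2 ≠ 0 ∧ h ≤ D.e p.1 ∧ h ≤ D.f p.2
          then (1 : ℝ) else 0) =
        ∑ p ∈ P, (if D.s p.1 ≠ 0 then (1 : ℝ) else 0) *
          (if D.t p.2 ≠ 0 ∧ h ≤ D.e p.1 ∧ h ≤ D.f p.2 then (1 : ℝ) else 0) :=
      Finset.sum_congr rfl fun p _ => by
        by_cases h1 : D.s p.1 = 0 <;>
          by_cases h2 : (D.t p.2 ≠ 0 ∧ h ≤ D.e p.1 ∧ h ≤ D.f p.2) <;> simp [h1, h2]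
    have e4 : ∑ p ∈ P, (1 / 4 : ℝ) ^ D.e p.1 *
          (if D.t p.2 ≠ 0 ∧ h ≤ D.e p.1 ∧ h ≤ D.f p.2 then (1 : ℝ) else 0) =
        ∑ p ∈ P, (if D.t p.2 ≠ 0 then (1 : ℝ) else 0) *
          (if h ≤ D.e p.1 ∧ h ≤ D.f p.2 then (1 / 4 : ℝ) ^ D.e p.1 else 0) :=
      Finset.sum_congr rfl fun p _ => by
        by_cases h1 : D.t p.2 = 0 <;>
          by_cases h2 : (h ≤ D.e p.1 ∧ h ≤ D.f p.2) <;> simp [h1, h2]
    rw [e3]
    rw [e4] at h1
    calc _ ≤ 1 / δ * _ := h1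
      _ ≤ 1 / δ * (1 / δ * ∑ p ∈ P, (1 / 4 : ℝ) ^ D.f p.2 *
          (if h ≤ D.e p.1 ∧ h ≤ D.f p.2 then (1 / 4 : ℝ) ^ D.e p.1 else 0)) :=
          mul_le_mul_of_nonneg_left h2 hd
      _ ≤ 1 / δ * (1 / δ * ∑ p ∈ P, ((1 / 4 : ℝ) ^ h) ^ 2) := by
          refine mul_le_mul_of_nonneg_left (mul_le_mul_of_nonneg_left
            (Finset.sum_le_sum fun p _ => ?_) hd) hd
          by_cases h3 : h ≤ D.e p.1 ∧ h ≤ D.f p.2
          · rw [if_pos h3, pow_two ((1 / 4 : ℝ) ^ h)]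
            exact mul_le_mul (pow_le_pow_of_le_one (by norm_num) (by norm_num) h3.2)
              (pow_le_pow_of_le_one (by norm_num) (by norm_num) h3.1) (hp0 _) (by positivity)
          · rw [if_neg h3, mul_zero]; positivity
      _ = _ := by
          rw [Finset.sum_const, nsmul_eq_mul, ← mul_assoc, mul_comm (P.card : ℝ)]
          congr 1; field_simp

open Classical in
/-- **The level theorem with sizes.** -/
theorem level_full {n M E B : ℕ} (A Q Q1 Q2 : Matrix (Fin n) (Fin n) ℝ) (s : Fin n → ℝ)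
    (l l' l'' δ u d X : ℝ) (hl'' : 0 < l'') (hl1 : l'' ≤ l') (hl2 : l' ≤ l) (hδ : 0 < δ)
    (hδ1 : δ ≤ 1) (hM : 50 * (Nat.log2 n + 2 + 1 / δ) ≤ M) (hu : 16 * (M : ℝ) ^ 3 ≤ u ^ 2)
    (hu2 : 10 ^ 8 * (Nat.log2 n + 2) / δ ≤ u) (hd : 0 ≤ d)
    (hdE : 100 * u ^ 10 * d ^ 2 ≤ (1 / 4) ^ E) (hB : 2 * E ≤ B)
    (hQ : IsSol (gram A l) Q d) (hQ1 : IsSol (gram A l') Q1 d) (hQ2 : IsSol (gram Aᵀ l') Q2 d)
    (hS : Valid (diagonal s) A l) (hK : KillOK (diagonal s) A l l' (u ^ 10) (u⁻¹ ^ 5))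
    (P : Finset (Fin n × Fin n)) (a b : Fin n → ℝ) (ha : ∀ i, 0 ≤ a i) (hb : ∀ i, 0 ≤ b i)
    (h : ℕ) (fl : Bool)
    (hX : ∑ p ∈ P.filter (fun p => s p.1 ≠ 0), pb M E u Aᵀ l' p.2 ≤ X) :
    frac (fun g : LBits n M B =>
      ¬ (GoodLevel M E u A l l' l'' s (LD.next E u A Q Q1 Q2 l l' s g) ∧
        GoodSize M E u δ A l' l'' X P a b h fl s (LD.next E u A Q Q1 Q2 l l' s g))) ≤ 50 * δ := by
  have hu0 : 0 ≤ u := by
    refine le_trans ?_ hu2
    positivity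
  refine le_trans (frac_mono ?_) (level_frac A Q Q1 Q2 s l l' l'' δ u d hl'' hl1 hl2 hδ hδ1 hM
    hu hu2 hd hdE hB hQ hQ1 hQ2 hS hK (fun e f => phiT P b h fl s e f)
    (fun e f t => phiS P a h fl (pb M E u Aᵀ l'') e f t)
    (fun e f r i => phiT_nonneg P b hb h fl s e f r i)
    (fun e f t r i => phiS_nonneg P a ha h fl _ (fun c => pb_nonneg M E hu0 Aᵀ hl'' c) e f t r i))
  intro g hg hc
  exact hg ⟨hc.1, goodSize_of hδ (fun c => pb_nonneg M E hu0 Aᵀ hl'' c) ha hb hc.1 hX hc.2.1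
    hc.2.2⟩

end

end A56
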