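import Pool.Agent.Lib_helper50.A56.L.PA

/-!
# MP_a55cb8, probability layer, block R: ridge scores (helper94)
-/

open Matrix Finset

namespace A56.PR

noncomputable section

section
variable {m n : Type*} [Fintype m] [Fintype n] [DecidableEq m] [DecidableEq n]

theorem R_sq_eq (x : n → ℝ) : sq x = x ⬝ᵥ x := by
  simp [sq, dotProduct, _root_.sq]

theorem R_sq_nonneg (x : n → ℝ) : 0 ≤ sq x := Finset.sum_nonneg fun i _ => sq_nonneg (x i)

/-- the bilinear form of the gram matrix -/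
theorem R_bil (A : Matrix m n ℝ) (l : ℝ) (y x : n → ℝ) :
    y ⬝ᵥ (gram A l *ᵥ x) = (A *ᵥ y) ⬝ᵥ (A *ᵥ x) + l * (y ⬝ᵥ x) := by
  rw [gram, add_mulVec, dotProduct_add, smul_mulVec, one_mulVec, dotProduct_smul, smul_eq_mul,
    ← mulVec_mulVec, dotProduct_mulVec, vecMul_transpose]

/-- R2 -/
theorem qf_gram (A : Matrix m n ℝ) (l : ℝ) (x : n → ℝ) :
    qf (gram A l) x = sq (A *ᵥ x) + l * sq x := by
  rw [qf, R_bil, R_sq_eq, R_sq_eq]

theorem R_gram_symm (A : Matrix m n ℝ) (l : ℝ) : (gram A l)ᵀ = gram A l := by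
  simp [gram, Matrix.transpose_add, Matrix.transpose_mul, Matrix.transpose_smul]

/-- R1 -/
theorem gram_posDef (A : Matrix m n ℝ) {l : ℝ} (hl : 0 < l) : (gram A l).PosDef := by
  refine Matrix.PosDef.of_dotProduct_mulVec_pos ?_ ?_
  · rw [Matrix.IsHermitian, conjTranspose_eq_transpose_of_trivial]
    exact R_gram_symm A l
  · intro x hx
    have h1 := qf_gram A l x
    have h2 : 0 < sq x := by
      rw [R_sq_eq]
      have := dotProduct_star_self_pos_iff.mpr hx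
      simpa using this
    have h3 := R_sq_nonneg (A *ᵥ x)
    have h4 : star x = x := by
      funext i
      simp
    rw [h4]
    show 0 < qf (gram A l) x
    rw [h1]
    have := mul_pos hl h2
    linarith

theorem R_det (A : Matrix m n ℝ) {l : ℝ} (hl : 0 < l) : IsUnit (gram A l).det :=
  (gram_posDef A hl).det_pos.ne'.isUnit

theorem R_mul_inv (A : Matrix m n ℝ) {l : ℝ} (hl : 0 < l) : gram A l * (gram A l)⁻¹ = 1 :=
  Matrix.mul_nonsing_inv _ (R_det A hl)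

theorem R_inv_mul (A : Matrix m n ℝ) {l : ℝ} (hl : 0 < l) : (gram A l)⁻¹ * gram A l = 1 :=
  Matrix.nonsing_inv_mul _ (R_det A hl)

theorem R_inv_symm (A : Matrix m n ℝ) (l : ℝ) : ((gram A l)⁻¹)ᵀ = (gram A l)⁻¹ := by
  rw [Matrix.transpose_nonsing_inv, R_gram_symm]

/-- the vector `W a` -/
def R_y (A : Matrix m n ℝ) (l : ℝ) (i : m) : n → ℝ := (gram A l)⁻¹ *ᵥ (A i)

theorem R_gram_y (A : Matrix m n ℝ) {l : ℝ} (hl : 0 < l) (i : m) : gram A l *ᵥ R_y A l i = A i := by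
  rw [R_y, mulVec_mulVec, R_mul_inv A hl, one_mulVec]

theorem R_row (A : Matrix m n ℝ) (l : ℝ) (i : m) : (A * (gram A l)⁻¹) i = R_y A l i := by
  rw [R_y, ← vecMul_transpose, R_inv_symm]
  rfl

theorem R_noise (A : Matrix m n ℝ) (l : ℝ) (i : m) : noiseM A l i = l • R_y A l i := by
  rw [noiseM, ← R_row]
  rfl

theorem R_rho (A : Matrix m n ℝ) (l : ℝ) (i : m) : rho A l i = R_y A l i ⬝ᵥ A i := by
  rw [rho, Matrix.mul_apply, ← R_row]
  rfl

theorem R_rho_eq (A : Matrix m n ℝ) {l : ℝ} (hl : 0 < l) (i : m) :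
    rho A l i = sq (A *ᵥ R_y A l i) + l * sq (R_y A l i) := by
  rw [R_rho, ← qf_gram, qf, R_gram_y A hl]

/-- R7 -/
theorem rho_nonneg (A : Matrix m n ℝ) {l : ℝ} (hl : 0 < l) (i : m) : 0 ≤ rho A l i := by
  rw [R_rho_eq A hl]
  have h1 := R_sq_nonneg (A *ᵥ R_y A l i)
  have h2 := R_sq_nonneg (R_y A l i)
  positivity

theorem R_cs (A : Matrix m n ℝ) {l : ℝ} (hl : 0 < l) (y x : n → ℝ) :
    (y ⬝ᵥ (gram A l *ᵥ x)) ^ 2 ≤ qf (gram A l) y * qf (gram A l) x := by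
  have h : ∀ t : ℝ, 0 ≤ qf (gram A l) y * (t * t) + 2 * (y ⬝ᵥ (gram A l *ᵥ x)) * t
      + qf (gram A l) x := by
    intro t
    have h1 : 0 ≤ qf (gram A l) (t • y + x) := by
      rw [qf_gram]
      have h1 := R_sq_nonneg (A *ᵥ (t • y + x))
      have h2 := R_sq_nonneg (t • y + x)
      positivity
    have h2 : qf (gram A l) (t • y + x) = qf (gram A l) y * (t * t)
        + 2 * (y ⬝ᵥ (gram A l *ᵥ x)) * t + qf (gram A l) x := by
      have h3 : x ⬝ᵥ (gram A l *ᵥ y) = y ⬝ᵥ (gram A l *ᵥ x) := by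
        rw [R_bil, R_bil, dotProduct_comm, dotProduct_comm x y]
      rw [qf, mulVec_add, mulVec_smul, add_dotProduct, dotProduct_add, dotProduct_add,
        smul_dotProduct, smul_dotProduct, dotProduct_smul, dotProduct_smul, h3]
      simp only [smul_eq_mul, qf]
      ring
    rw [← h2]
    exact h1
  have h4 := discrim_le_zero h
  rw [discrim] at h4
  nlinarith

/-- R3 -/
theorem row_sq_le (A : Matrix m n ℝ) {l : ℝ} (hl : 0 < l) (i : m) (x : n → ℝ) :
    (A *ᵥ x) i ^ 2 ≤ rho A l i * (sq (A *ᵥ x) + l * sq x) := by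
  have h1 := R_cs A hl (R_y A l i) x
  have h2 : R_y A l i ⬝ᵥ (gram A l *ᵥ x) = (A *ᵥ x) i := by
    rw [dotProduct_mulVec, ← mulVec_transpose, R_gram_symm, R_gram_y A hl]
    rfl
  rw [h2, qf_gram, qf_gram, ← R_rho_eq A hl] at h1
  exact h1

/-- R4 -/
theorem sq_noise_row_le (A : Matrix m n ℝ) {l : ℝ} (hl : 0 < l) (i : m) :
    sq (noiseM A l i) ≤ l * rho A l i := by
  have h1 : sq (noiseM A l i) = l ^ 2 * sq (R_y A l i) := by
    rw [R_noise, R_sq_eq, R_sq_eq, smul_dotProduct, dotProduct_smul]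
    simp only [smul_eq_mul]
    ring
  rw [h1, R_rho_eq A hl]
  have h2 := R_sq_nonneg (A *ᵥ R_y A l i)
  nlinarith [mul_nonneg hl.le h2]

theorem R_push (A : Matrix m n ℝ) {l : ℝ} (hl : 0 < l) :
    (gram A l)⁻¹ * Aᵀ = Aᵀ * (gram Aᵀ l)⁻¹ := by
  have h1 : gram A l * Aᵀ = Aᵀ * gram Aᵀ l := by
    simp only [gram, transpose_transpose, Matrix.add_mul, Matrix.mul_add, Matrix.smul_mul,
      Matrix.mul_smul, Matrix.one_mul, Matrix.mul_one, Matrix.mul_assoc]
  calc (gram A l)⁻¹ * Aᵀ = (gram A l)⁻¹ * (Aᵀ * (gram Aᵀ l * (gram Aᵀ l)⁻¹)) := by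
        rw [R_mul_inv Aᵀ hl, Matrix.mul_one]
    _ = ((gram A l)⁻¹ * gram A l) * Aᵀ * (gram Aᵀ l)⁻¹ := by
        rw [← Matrix.mul_assoc Aᵀ, ← h1]
        simp only [Matrix.mul_assoc]
    _ = _ := by rw [R_inv_mul A hl, Matrix.one_mul]

theorem R_noise_transpose (A : Matrix m n ℝ) {l : ℝ} (hl : 0 < l) :
    (noiseM A l)ᵀ = noiseM Aᵀ l := by
  rw [noiseM, noiseM, transpose_smul, transpose_mul, R_inv_symm, R_push A hl]

/-- R5 -/
theorem sq_noise_col_le (A : Matrix m n ℝ) {l : ℝ} (hl : 0 < l) (c : n) :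
    sq ((noiseM A l).col c) ≤ l * rho Aᵀ l c := by
  have h1 : (noiseM A l).col c = noiseM Aᵀ l c := by
    rw [← R_noise_transpose A hl]
    rfl
  rw [h1]
  exact sq_noise_row_le Aᵀ hl c

/-- R6 -/
theorem rho_anti (A : Matrix m n ℝ) {l l' : ℝ} (hl' : 0 < l') (hll : l' ≤ l) (i : m) :
    rho A l i ≤ rho A l' i := by
  have hl : 0 < l := hl'.trans_le hll
  have h0 := rho_nonneg A hl i
  have h0' := rho_nonneg A hl' i
  rcases h0.eq_or_lt with h | h
  · rw [← h]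
    exact h0'
  have h1 := row_sq_le A hl' i (R_y A l i)
  have h2 : (A *ᵥ R_y A l i) i = rho A l i := by
    rw [R_rho, dotProduct_comm]
    rfl
  have h3 : sq (A *ᵥ R_y A l i) + l' * sq (R_y A l i) ≤ rho A l i := by
    rw [R_rho_eq A hl]
    have := mul_le_mul_of_nonneg_right hll (R_sq_nonneg (R_y A l i))
    linarith
  rw [h2] at h1
  have h4 : rho A l i ^ 2 ≤ rho A l' i * rho A l i :=
    h1.trans (mul_le_mul_of_nonneg_left h3 h0')
  nlinarith

end

end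

end A56.PR
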