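import Pool.Agent.Lib_helper50.A56.L.PA

/-! Block T7 of the probability layer (helper47): an upper tail bound. -/

open Matrix Finset

namespace A56

noncomputable section

theorem PT7_exp {y : ℝ} (h0 : 0 ≤ y) (h1 : y ≤ 1) : Real.exp y ≤ 1 + 2 * y := by
  have h := convexOn_exp.2 (Set.mem_univ (0:ℝ)) (Set.mem_univ (1:ℝ)) (sub_nonneg.2 h1) h0
    (by ring)
  simp only [smul_eq_mul, mul_zero, mul_one, zero_add, Real.exp_zero] at h
  have he := Real.exp_one_lt_d9
  nlinarith

/-- T7 -/
theorem chern {ι : Type*} [Fintype ι] [DecidableEq ι] (Ω : ι → Type*)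
    [∀ i, Fintype (Ω i)] [∀ i, Nonempty (Ω i)] (f : ∀ i, Ω i → ℝ)
    (hf : ∀ i ω, 0 ≤ f i ω) (hf1 : ∀ i, av (f i) = 1) (v : ι → ℝ) (hv : ∀ i, 0 ≤ v i)
    (h a : ℝ) (hh : 0 < h) (hb : ∀ i ω, v i * f i ω ≤ h) (ha : 4 * ∑ i, v i ≤ a) :
    frac (fun ω : (i : ι) → Ω i => a ≤ ∑ i, v i * f i (ω i)) ≤ Real.exp (-(a / (2 * h))) := by
  have e1 : frac (fun ω : (i : ι) → Ω i => a ≤ ∑ i, v i * f i (ω i)) ≤
      frac (fun ω : (i : ι) → Ω i => Real.exp (a / h) ≤
        ∏ i, Real.exp (v i * f i (ω i) / h)) := by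
    apply frac_mono
    intro ω hω
    rw [← Real.exp_sum, Real.exp_le_exp, ← Finset.sum_div]
    gcongr
  have e2 := markov (f := fun ω : (i : ι) → Ω i => ∏ i, Real.exp (v i * f i (ω i) / h))
    (fun ω => Finset.prod_nonneg fun i _ => (Real.exp_pos _).le) (Real.exp_pos (a / h))
  have e3 : av (fun ω : (i : ι) → Ω i => ∏ i, Real.exp (v i * f i (ω i) / h)) ≤
      Real.exp (2 * (∑ i, v i) / h) := by
    rw [av_pi_prod (fun i x => Real.exp (v i * f i x / h))]
    have e4 : Real.exp (2 * (∑ i, v i) / h) = ∏ i, Real.exp (2 * v i / h) := by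
      rw [← Real.exp_sum, Finset.mul_sum, Finset.sum_div]
    rw [e4]
    apply Finset.prod_le_prod
    · intro i _
      exact av_nonneg fun w => (Real.exp_pos _).le
    · intro i _
      calc av (fun x => Real.exp (v i * f i x / h))
          ≤ av (fun x => 1 + 2 * v i / h * f i x) := by
            apply av_mono
            intro x
            refine (PT7_exp (div_nonneg (mul_nonneg (hv i) (hf i x)) hh.le)
              ((div_le_one hh).2 (hb i x))).trans (le_of_eq ?_)
            ring
        _ = 1 + 2 * v i / h := by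
            rw [av_add, av_mul_left, hf1, av_const]; ring
        _ ≤ Real.exp (2 * v i / h) := by
            have := Real.add_one_le_exp (2 * v i / h)
            linarith
  refine e1.trans (e2.trans ?_)
  rw [div_le_iff₀ (Real.exp_pos _), ← Real.exp_add]
  refine e3.trans (Real.exp_le_exp.2 ?_)
  have : 2 * (∑ i, v i) / h ≤ (a / 2) / h := by
    gcongr
    linarith
  refine this.trans (le_of_eq ?_)
  field_simp
  ring

end

end A56
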