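import Pool.Agent.Lib_helper50.A56.L.PA

/-! Block T1 (project A56, probability layer): trace AM-GM. -/

open Finset Matrix

namespace A56

theorem PT1_young (a b : ℝ) (q r : ℕ) (he : Even (q + r)) :
    ((q + r : ℕ) : ℝ) * (a ^ q * b ^ r) ≤ q * a ^ (q + r) + r * b ^ (q + r) := by
  rcases Nat.eq_zero_or_pos (q + r) with h0 | hpos
  · have hq : q = 0 := by omega
    have hr : r = 0 := by omega
    subst hq; subst hr
    simp
  have hN : (0 : ℝ) < ((q + r : ℕ) : ℝ) := by exact_mod_cast hpos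
  have hN' : ((q + r : ℕ) : ℝ) ≠ 0 := hN.ne'
  have ha : a ^ (q + r) = |a| ^ (q + r) := (he.pow_abs a).symm
  have hb : b ^ (q + r) = |b| ^ (q + r) := (he.pow_abs b).symm
  have h1 : a ^ q * b ^ r ≤ |a| ^ q * |b| ^ r := by
    rw [← abs_pow, ← abs_pow, ← abs_mul]
    exact le_abs_self _
  have hw : (q : ℝ) / ((q + r : ℕ) : ℝ) + (r : ℝ) / ((q + r : ℕ) : ℝ) = 1 := by
    rw [← add_div, ← Nat.cast_add]
    exact div_self hN'
  have h2 := Real.geom_mean_le_arith_mean2_weighted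
    (w₁ := (q : ℝ) / ((q + r : ℕ) : ℝ)) (w₂ := (r : ℝ) / ((q + r : ℕ) : ℝ))
    (p₁ := |a| ^ (q + r)) (p₂ := |b| ^ (q + r))
    (div_nonneg (Nat.cast_nonneg _) hN.le) (div_nonneg (Nat.cast_nonneg _) hN.le)
    (pow_nonneg (abs_nonneg _) _) (pow_nonneg (abs_nonneg _) _) hw
  have hroot : ∀ (x : ℝ) (k : ℕ), 0 ≤ x →
      (x ^ (q + r)) ^ ((k : ℝ) / ((q + r : ℕ) : ℝ)) = x ^ k := by
    intro x k hx
    rw [← Real.rpow_natCast x (q + r), ← Real.rpow_mul hx, mul_div_cancel₀ _ hN',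
      Real.rpow_natCast]
  rw [hroot _ _ (abs_nonneg _), hroot _ _ (abs_nonneg _)] at h2
  calc ((q + r : ℕ) : ℝ) * (a ^ q * b ^ r) ≤ ((q + r : ℕ) : ℝ) * (|a| ^ q * |b| ^ r) :=
        mul_le_mul_of_nonneg_left h1 hN.le
    _ ≤ ((q + r : ℕ) : ℝ) * ((q : ℝ) / ((q + r : ℕ) : ℝ) * |a| ^ (q + r) +
        (r : ℝ) / ((q + r : ℕ) : ℝ) * |b| ^ (q + r)) := mul_le_mul_of_nonneg_left h2 hN.le
    _ = q * a ^ (q + r) + r * b ^ (q + r) := by
        rw [ha, hb]
        field_simp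

theorem PT1_spec {n : ℕ} (A : Matrix (Fin n) (Fin n) ℝ) (hA : Aᵀ = A) :
    ∃ (U : Matrix (Fin n) (Fin n) ℝ) (a : Fin n → ℝ), U * Uᵀ = 1 ∧ Uᵀ * U = 1 ∧
      ∀ k : ℕ, A ^ k = U * diagonal (fun i => a i ^ k) * Uᵀ := by
  have hH : A.IsHermitian := by
    rw [Matrix.IsHermitian, Matrix.conjTranspose_eq_transpose_of_trivial]
    exact hA
  obtain ⟨U, a, hU', hU, h1⟩ : ∃ (U : Matrix (Fin n) (Fin n) ℝ) (a : Fin n → ℝ),
      U * Uᵀ = 1 ∧ Uᵀ * U = 1 ∧ A = U * diagonal a * Uᵀ := by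
    refine ⟨(hH.eigenvectorUnitary : Matrix (Fin n) (Fin n) ℝ), hH.eigenvalues, ?_, ?_, ?_⟩
    · have := (Matrix.mem_unitaryGroup_iff).1 hH.eigenvectorUnitary.2
      rwa [Matrix.star_eq_conjTranspose, Matrix.conjTranspose_eq_transpose_of_trivial] at this
    · have := (Matrix.mem_unitaryGroup_iff').1 hH.eigenvectorUnitary.2
      rwa [Matrix.star_eq_conjTranspose, Matrix.conjTranspose_eq_transpose_of_trivial] at this
    · have h2 := hH.spectral_theorem
      rw [Unitary.conjStarAlgAut_apply] at h2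
      rw [Matrix.star_eq_conjTranspose, Matrix.conjTranspose_eq_transpose_of_trivial] at h2
      exact h2
  refine ⟨U, a, hU', hU, ?_⟩
  subst h1
  intro k
  induction k with
  | zero =>
    simp only [pow_zero, diagonal_one, Matrix.mul_one]
    exact hU'.symm
  | succ k ih =>
    rw [pow_succ, ih]
    calc U * diagonal (fun i => a i ^ k) * Uᵀ * (U * diagonal a * Uᵀ)
        = U * diagonal (fun i => a i ^ k) * (Uᵀ * U) *
          diagonal a * Uᵀ := by simp only [Matrix.mul_assoc]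
      _ = U * (diagonal (fun i => a i ^ k) * diagonal a) * Uᵀ := by
          rw [hU, Matrix.mul_one]; simp only [Matrix.mul_assoc]
      _ = U * diagonal (fun i => a i ^ (k + 1)) * Uᵀ := by
          rw [diagonal_mul_diagonal]
          simp only [pow_succ]

/-- T1 -/
theorem tr_amgm {n : ℕ} (A B H : Matrix (Fin n) (Fin n) ℝ) (hA : Aᵀ = A) (hB : Bᵀ = B)
    (hH : Hᵀ = H) (q r : ℕ) (he : Even (q + r)) :
    ((q + r : ℕ) : ℝ) * (H * A ^ q * H * B ^ r).trace ≤
      q * (H * H * A ^ (q + r)).trace + r * (H * H * B ^ (q + r)).trace := by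
  obtain ⟨U, a, hU1, hU2, hUA⟩ := PT1_spec A hA
  obtain ⟨V, b, hV1, hV2, hVB⟩ := PT1_spec B hB
  set G : Matrix (Fin n) (Fin n) ℝ := Uᵀ * H * V with hG
  have hGT : Gᵀ = Vᵀ * H * U := by
    rw [hG, transpose_mul, transpose_mul, hH, transpose_transpose, Matrix.mul_assoc]
  have e1 : (H * A ^ q * H * B ^ r).trace = ∑ j, ∑ k, a j ^ q * b k ^ r * G j k ^ 2 := by
    rw [hUA, hVB]
    have h1 : H * (U * diagonal (fun i => a i ^ q) * Uᵀ) * H *
        (V * diagonal (fun i => b i ^ r) * Vᵀ) =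
        (H * U * diagonal (fun i => a i ^ q) * G * diagonal (fun i => b i ^ r)) * Vᵀ := by
      rw [hG]; simp only [Matrix.mul_assoc]
    rw [h1, trace_mul_comm]
    have h2 : Vᵀ * (H * U * diagonal (fun i => a i ^ q) * G * diagonal (fun i => b i ^ r)) =
        Gᵀ * (diagonal (fun i => a i ^ q) * G * diagonal (fun i => b i ^ r)) := by
      rw [hGT]; simp only [Matrix.mul_assoc]
    rw [h2, trace, Finset.sum_comm]
    refine Finset.sum_congr rfl fun k _ => ?_
    rw [diag_apply, mul_apply]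
    refine Finset.sum_congr rfl fun j _ => ?_
    rw [mul_diagonal, diagonal_mul, transpose_apply]
    ring
  have e2 : (H * H * A ^ (q + r)).trace = ∑ j, ∑ k, a j ^ (q + r) * G j k ^ 2 := by
    rw [hUA]
    have h1 : H * H * (U * diagonal (fun i => a i ^ (q + r)) * Uᵀ) =
        (H * (V * Vᵀ) * H * U * diagonal (fun i => a i ^ (q + r))) * Uᵀ := by
      rw [hV1, Matrix.mul_one]; simp only [Matrix.mul_assoc]
    rw [h1, trace_mul_comm]
    have h2 : Uᵀ * (H * (V * Vᵀ) * H * U * diagonal (fun i => a i ^ (q + r))) =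
        G * Gᵀ * diagonal (fun i => a i ^ (q + r)) := by
      rw [hGT, hG]; simp only [Matrix.mul_assoc]
    rw [h2, trace]
    refine Finset.sum_congr rfl fun j _ => ?_
    rw [diag_apply, mul_diagonal, mul_apply, Finset.sum_mul]
    refine Finset.sum_congr rfl fun k _ => ?_
    rw [transpose_apply]
    ring
  have e3 : (H * H * B ^ (q + r)).trace = ∑ j, ∑ k, b k ^ (q + r) * G j k ^ 2 := by
    rw [hVB]
    have h1 : H * H * (V * diagonal (fun i => b i ^ (q + r)) * Vᵀ) =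
        (H * (U * Uᵀ) * H * V * diagonal (fun i => b i ^ (q + r))) * Vᵀ := by
      rw [hU1, Matrix.mul_one]; simp only [Matrix.mul_assoc]
    rw [h1, trace_mul_comm]
    have h2 : Vᵀ * (H * (U * Uᵀ) * H * V * diagonal (fun i => b i ^ (q + r))) =
        Gᵀ * G * diagonal (fun i => b i ^ (q + r)) := by
      rw [hGT, hG]; simp only [Matrix.mul_assoc]
    rw [h2, trace, Finset.sum_comm]
    refine Finset.sum_congr rfl fun k _ => ?_
    rw [diag_apply, mul_diagonal, mul_apply, Finset.sum_mul]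
    refine Finset.sum_congr rfl fun j _ => ?_
    rw [transpose_apply]
    ring
  rw [e1, e2, e3]
  simp only [Finset.mul_sum]
  rw [← Finset.sum_add_distrib]
  refine Finset.sum_le_sum fun j _ => ?_
  rw [← Finset.sum_add_distrib]
  refine Finset.sum_le_sum fun k _ => ?_
  have h := mul_le_mul_of_nonneg_right (PT1_young (a j) (b k) q r he) (sq_nonneg (G j k))
  calc ((q + r : ℕ) : ℝ) * (a j ^ q * b k ^ r * G j k ^ 2)
      = ((q + r : ℕ) : ℝ) * (a j ^ q * b k ^ r) * G j k ^ 2 := by ring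
    _ ≤ (q * a j ^ (q + r) + r * b k ^ (q + r)) * G j k ^ 2 := h
    _ = q * (a j ^ (q + r) * G j k ^ 2) + r * (b k ^ (q + r) * G j k ^ 2) := by ring

end A56
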