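import Pool.Agent.Lib_helper50.A56.L.PA
import Pool.Agent.Lib_helper50.A56.L.P_T1

/-!
# MP_a55cb8: block T2 (moments of a Rademacher sum of matrices), helper37
-/

open Matrix Finset


namespace A56


/-- telescoping without commutativity -/
lemma PT2_tele {R : Type*} [Ring R] (a b : R) (m : ℕ) :
    a ^ (m + 1) - b ^ (m + 1) = ∑ q ∈ range (m + 1), a ^ q * (a - b) * b ^ (m - q) := by
  induction m with
  | zero => simp
  | succ m ih =>
    rw [Finset.sum_range_succ']
    have h1 : ∀ q ∈ range (m + 1), a ^ (q + 1) * (a - b) * b ^ (m + 1 - (q + 1)) =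
        a * (a ^ q * (a - b) * b ^ (m - q)) := by
      intro q _
      rw [Nat.add_sub_add_right, pow_succ']
      simp only [mul_assoc]
    rw [Finset.sum_congr rfl h1, ← Finset.mul_sum, ← ih, pow_zero, one_mul, Nat.sub_zero,
      pow_succ' a (m + 1), pow_succ' b (m + 1)]
    noncomm_ring

lemma PT2_pair {n : ℕ} (A B H : Matrix (Fin n) (Fin n) ℝ) (hA : Aᵀ = A) (hB : Bᵀ = B)
    (hH : Hᵀ = H) (hAB : A - B = (2 : ℝ) • H) (p : ℕ) :
    ((H * A ^ (2 * p + 1)).trace - (H * B ^ (2 * p + 1)).trace) / 2 ≤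
      (2 * p + 1) * (((H * H * A ^ (2 * p)).trace + (H * H * B ^ (2 * p)).trace) / 2) := by
  have h1 : (H * A ^ (2 * p + 1)).trace - (H * B ^ (2 * p + 1)).trace =
      2 * ∑ q ∈ range (2 * p + 1), (H * A ^ q * H * B ^ (2 * p - q)).trace := by
    rw [← Matrix.trace_sub, ← Matrix.mul_sub, PT2_tele, Matrix.mul_sum, Matrix.trace_sum,
      Finset.mul_sum]
    refine Finset.sum_congr rfl fun q _ => ?_
    rw [hAB, Matrix.mul_smul, Matrix.smul_mul, Matrix.mul_smul, Matrix.trace_smul, smul_eq_mul]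
    simp only [Matrix.mul_assoc]
  rw [h1]
  rcases Nat.eq_zero_or_pos p with rfl | hp
  · simp
  have hp' : (0 : ℝ) < p := by exact_mod_cast hp
  set TA := (H * H * A ^ (2 * p)).trace with hTA
  set TB := (H * H * B ^ (2 * p)).trace with hTB
  have h2 : ∀ q ∈ range (2 * p + 1), (2 * p : ℝ) * (H * A ^ q * H * B ^ (2 * p - q)).trace ≤
      q * TA + (2 * p - q) * TB := by
    intro q hq
    have hq' : q ≤ 2 * p := by
      have := Finset.mem_range.1 hq
      omega
    have h3 := tr_amgm A B H hA hB hH q (2 * p - q) (by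
      rw [Nat.add_sub_cancel' hq']
      exact even_two_mul p)
    rw [Nat.add_sub_cancel' hq', Nat.cast_sub hq'] at h3
    push_cast at h3
    exact h3
  have h3 := Finset.sum_le_sum h2
  rw [← Finset.mul_sum, Finset.sum_add_distrib, ← Finset.sum_mul, ← Finset.sum_mul,
    Finset.sum_sub_distrib, Finset.sum_const, Finset.card_range, nsmul_eq_mul] at h3
  have h4 : ∑ q ∈ range (2 * p + 1), (q : ℝ) = p * (2 * p + 1) := by
    have h5 : ∀ N : ℕ, ∑ q ∈ range (N + 1), (q : ℝ) = N * (N + 1) / 2 := by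
      intro N
      induction N with
      | zero => simp
      | succ N ih =>
        rw [Finset.sum_range_succ, ih]
        push_cast
        ring
    rw [h5]
    push_cast
    ring
  rw [h4] at h3
  push_cast at h3
  set G0 := ∑ q ∈ range (2 * p + 1), (H * A ^ q * H * B ^ (2 * p - q)).trace with hG0
  have h6 : (2 * p : ℝ) * G0 ≤ (2 * p : ℝ) * ((2 * p + 1) * ((TA + TB) / 2)) := by
    refine h3.trans (le_of_eq ?_)
    ring
  have h7 := le_of_mul_le_mul_left h6 (by positivity)
  linarith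

lemma PT2_trace {n : ℕ} (M : Matrix (Fin n) (Fin n) ℝ) :
    (Mᵀ * M).trace = ∑ j, sq (fun i => M i j) := by
  unfold Matrix.trace sq
  refine Finset.sum_congr rfl fun j _ => ?_
  rw [Matrix.diag_apply, Matrix.mul_apply]
  refine Finset.sum_congr rfl fun i _ => ?_
  rw [Matrix.transpose_apply, pow_two]

lemma PT2_var {n : ℕ} {ι : Type*} [Fintype ι] (H : ι → Matrix (Fin n) (Fin n) ℝ)
    (hH : ∀ i, (H i)ᵀ = H i) (v : ℝ) (hv : ∀ x, ∑ i, sq (H i *ᵥ x) ≤ v * sq x)
    (X : Matrix (Fin n) (Fin n) ℝ) (hX : Xᵀ = X) (p : ℕ) :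
    ∑ i, (H i * H i * X ^ (2 * p)).trace ≤ v * (X ^ (2 * p)).trace := by
  set Y := X ^ p with hY
  have hYt : Yᵀ = Y := by rw [hY, Matrix.transpose_pow, hX]
  have h1 : X ^ (2 * p) = Y * Y := by rw [two_mul, pow_add]
  have h2 : ∀ i, (H i * H i * X ^ (2 * p)).trace = ∑ j, sq (H i *ᵥ fun k => Y k j) := by
    intro i
    have h3 : (H i * H i * X ^ (2 * p)).trace = ((H i * Y)ᵀ * (H i * Y)).trace := by
      rw [h1, Matrix.transpose_mul, hYt, hH i, ← Matrix.mul_assoc, Matrix.trace_mul_comm]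
      simp only [Matrix.mul_assoc]
    rw [h3, PT2_trace]
    refine Finset.sum_congr rfl fun j _ => ?_
    congr 1
  have h3 : (X ^ (2 * p)).trace = ∑ j, sq (fun k => Y k j) := by
    rw [h1, ← PT2_trace, hYt]
  rw [Finset.sum_congr rfl fun i _ => h2 i, Finset.sum_comm, h3, Finset.mul_sum]
  exact Finset.sum_le_sum fun j _ => hv _

lemma PT2_av_bool (f : Bool → ℝ) : av f = (f true + f false) / 2 := by
  unfold av
  rw [Fintype.sum_bool, Fintype.card_bool, Nat.cast_ofNat]

lemma PT2_update {n : ℕ} {ι : Type*} [Fintype ι] [DecidableEq ι]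
    (H : ι → Matrix (Fin n) (Fin n) ℝ) (w : ι → Bool) (i : ι) :
    (∑ j, sgn (Function.update w i true j) • H j) - (∑ j, sgn (Function.update w i false j) • H j)
      = (2 : ℝ) • H i := by
  rw [← Finset.sum_sub_distrib, Finset.sum_eq_single i]
  · rw [Function.update_self, Function.update_self, ← sub_smul]
    congr 1
    unfold sgn
    norm_num
  · intro j _ hj
    rw [Function.update_of_ne hj, Function.update_of_ne hj, sub_self]
  · intro h
    exact absurd (Finset.mem_univ i) h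

lemma PT2_step {n : ℕ} {ι : Type*} [Fintype ι] [DecidableEq ι]
    (H : ι → Matrix (Fin n) (Fin n) ℝ) (hH : ∀ i, (H i)ᵀ = H i) (v : ℝ)
    (hv : ∀ x, ∑ i, sq (H i *ᵥ x) ≤ v * sq x) (p : ℕ) :
    av (fun ε : ι → Bool => ((∑ i, sgn (ε i) • H i) ^ (2 * (p + 1))).trace) ≤
      (2 * p + 1) * (v * av (fun ε : ι → Bool => ((∑ i, sgn (ε i) • H i) ^ (2 * p)).trace)) := by
  set X : (ι → Bool) → Matrix (Fin n) (Fin n) ℝ := fun ε => ∑ i, sgn (ε i) • H i with hXd
  have hX : ∀ ε, (X ε)ᵀ = X ε := by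
    intro ε
    simp only [hXd]
    rw [Matrix.transpose_sum]
    exact Finset.sum_congr rfl fun i _ => by rw [Matrix.transpose_smul, hH i]
  have h1 : ∀ ε, ((X ε) ^ (2 * (p + 1))).trace =
      ∑ i, sgn (ε i) * (H i * X ε ^ (2 * p + 1)).trace := by
    intro ε
    have h2 : X ε ^ (2 * (p + 1)) = (∑ i, sgn (ε i) • H i) * X ε ^ (2 * p + 1) := by
      rw [show 2 * (p + 1) = (2 * p + 1) + 1 by ring, pow_succ']
    rw [h2, Matrix.sum_mul, Matrix.trace_sum]
    refine Finset.sum_congr rfl fun i _ => ?_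
    rw [Matrix.smul_mul, Matrix.trace_smul, smul_eq_mul]
  have h2 : ∀ i, av (fun ε : ι → Bool => sgn (ε i) * (H i * X ε ^ (2 * p + 1)).trace) ≤
      (2 * p + 1) * av (fun ε : ι → Bool => (H i * H i * X ε ^ (2 * p)).trace) := by
    intro i
    rw [av_update (B := fun _ : ι => Bool) i
      (fun ε : ι → Bool => sgn (ε i) * (H i * X ε ^ (2 * p + 1)).trace),
      av_update (B := fun _ : ι => Bool) i
      (fun ε : ι → Bool => (H i * H i * X ε ^ (2 * p)).trace), ← av_mul_left]
    refine av_mono fun w => ?_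
    rw [PT2_av_bool, PT2_av_bool]
    simp only [Function.update_self]
    have h3 := PT2_pair (X (Function.update w i true)) (X (Function.update w i false)) (H i)
      (hX _) (hX _) (hH i) (PT2_update H w i) p
    have h4 : sgn true = 1 := rfl
    have h5 : sgn false = -1 := rfl
    rw [h4, h5, one_mul, neg_one_mul, ← sub_eq_add_neg]
    exact h3
  calc av (fun ε : ι → Bool => (X ε ^ (2 * (p + 1))).trace)
      = av (fun ε : ι → Bool => ∑ i, sgn (ε i) * (H i * X ε ^ (2 * p + 1)).trace) :=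
        av_congr h1
    _ = ∑ i, av (fun ε : ι → Bool => sgn (ε i) * (H i * X ε ^ (2 * p + 1)).trace) :=
        av_sum _ _
    _ ≤ ∑ i, (2 * p + 1) * av (fun ε : ι → Bool => (H i * H i * X ε ^ (2 * p)).trace) :=
        Finset.sum_le_sum fun i _ => h2 i
    _ = (2 * p + 1) * av (fun ε : ι → Bool => ∑ i, (H i * H i * X ε ^ (2 * p)).trace) := by
        rw [← Finset.mul_sum, av_sum]
    _ ≤ (2 * p + 1) * av (fun ε : ι → Bool => v * (X ε ^ (2 * p)).trace) := by
        refine mul_le_mul_of_nonneg_left (av_mono fun ε => ?_) (by positivity)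
        exact PT2_var H hH v hv (X ε) (hX ε) p
    _ = (2 * p + 1) * (v * av (fun ε : ι → Bool => (X ε ^ (2 * p)).trace)) := by
        rw [av_mul_left]

/-- T2 -/
theorem rad_moment {n : ℕ} {ι : Type*} [Fintype ι] [DecidableEq ι]
    (H : ι → Matrix (Fin n) (Fin n) ℝ) (hH : ∀ i, (H i)ᵀ = H i) (v : ℝ) (hv0 : 0 ≤ v)
    (hv : ∀ x, ∑ i, sq (H i *ᵥ x) ≤ v * sq x) (p : ℕ) :
    av (fun ε : ι → Bool => ((∑ i, sgn (ε i) • H i) ^ (2 * p)).trace) ≤
      (2 * p * v) ^ p * n := by
  induction p with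
  | zero =>
    simp only [Nat.mul_zero, pow_zero, Matrix.trace_one, Fintype.card_fin]
    rw [av_const, one_mul]
  | succ p ih =>
    refine (PT2_step H hH v hv p).trans ?_
    have hp : (0 : ℝ) ≤ p := Nat.cast_nonneg p
    have hn : (0 : ℝ) ≤ n := Nat.cast_nonneg n
    calc (2 * p + 1) * (v * av (fun ε : ι → Bool => ((∑ i, sgn (ε i) • H i) ^ (2 * p)).trace))
        ≤ (2 * p + 1) * (v * ((2 * p * v) ^ p * n)) := by
          refine mul_le_mul_of_nonneg_left (mul_le_mul_of_nonneg_left ih hv0) (by positivity)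
      _ ≤ (2 * (p + 1) : ℝ) * (v * ((2 * (p + 1) * v) ^ p * n)) := by
          refine mul_le_mul (by linarith) ?_ (by positivity) (by positivity)
          refine mul_le_mul_of_nonneg_left (mul_le_mul_of_nonneg_right ?_ hn) hv0
          refine pow_le_pow_left₀ (by positivity) ?_ p
          refine mul_le_mul_of_nonneg_right (by linarith) hv0
      _ = (2 * ((p + 1 : ℕ) : ℝ) * v) ^ (p + 1) * n := by
          push_cast
          ring

end A56
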