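import Pool.Agent.Lib_helper50.A56.L.PD
import Pool.Agent.Lib_helper50.A56.L.P_T3
import Pool.Agent.Lib_helper50.A56.L.P_T4

/-!
# MP_a55cb8, probability layer, block T5 (helper13): `mc_main`
-/

open Matrix Finset

namespace A56

noncomputable section

/-! stubs of other blocks -/


/- T5_BEGIN -/

theorem PT5_qf_add {n : ℕ} (X Y : Matrix (Fin n) (Fin n) ℝ) (x : Fin n → ℝ) :
    qf (X + Y) x = qf X x + qf Y x := by
  unfold qf
  rw [Matrix.add_mulVec, dotProduct_add]

theorem PT5_qf_sub {n : ℕ} (X Y : Matrix (Fin n) (Fin n) ℝ) (x : Fin n → ℝ) :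
    qf (X - Y) x = qf X x - qf Y x := by
  unfold qf
  rw [Matrix.sub_mulVec, dotProduct_sub]

theorem PT5_qf_smul {n : ℕ} (c : ℝ) (X : Matrix (Fin n) (Fin n) ℝ) (x : Fin n → ℝ) :
    qf (c • X) x = c * qf X x := by
  unfold qf
  rw [Matrix.smul_mulVec, dotProduct_smul, smul_eq_mul]

theorem PT5_qf_sum {n : ℕ} {ι : Type*} (s : Finset ι) (X : ι → Matrix (Fin n) (Fin n) ℝ)
    (x : Fin n → ℝ) : qf (∑ i ∈ s, X i) x = ∑ i ∈ s, qf (X i) x := by
  classical
  induction s using Finset.induction_on with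
  | empty =>
    unfold qf
    simp
  | insert a s ha ih =>
    rw [Finset.sum_insert ha, Finset.sum_insert ha, PT5_qf_add, ih]

theorem PT5_sq_nonneg {n : ℕ} (x : Fin n → ℝ) : 0 ≤ sq x :=
  Finset.sum_nonneg fun i _ => sq_nonneg (x i)

theorem PT5_qn_sub {n : ℕ} (X Y : Matrix (Fin n) (Fin n) ℝ) : qn (X - Y) ≤ qn X + qn Y := by
  refine qn_le _ (add_nonneg (qn_nonneg _) (qn_nonneg _)) fun x => ?_
  rw [PT5_qf_sub, add_mul]
  exact (abs_sub _ _).trans (add_le_add (abs_qf_le_qn X x) (abs_qf_le_qn Y x))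

theorem PT5_qf_nonneg {n : ℕ} {Z : Matrix (Fin n) (Fin n) ℝ} (hZ : Z.PosSemidef)
    (x : Fin n → ℝ) : 0 ≤ qf Z x := by
  have h := hZ.dotProduct_mulVec_nonneg x
  simpa [qf] using h

theorem PT5_symm {n : ℕ} {Z : Matrix (Fin n) (Fin n) ℝ} (hZ : Z.PosSemidef) : Zᵀ = Z := by
  have h := hZ.1
  rw [Matrix.IsHermitian, Matrix.conjTranspose_eq_transpose_of_trivial] at h
  exact h

/-- a positive semidefinite matrix that is at most `β` has square at most `β` times itself -/
theorem PT5_sq_le {n : ℕ} {H : Matrix (Fin n) (Fin n) ℝ} (hS : Hᵀ = H)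
    (hH : ∀ x, 0 ≤ qf H x) {β : ℝ} (hβ0 : 0 ≤ β) (hβ : ∀ x, qf H x ≤ β * sq x)
    (x : Fin n → ℝ) : sq (H *ᵥ x) ≤ β * qf H x := by
  have hy : ∀ t : ℝ, 0 ≤ t ^ 2 * qf H x - 2 * t * sq (H *ᵥ x) + β * sq (H *ᵥ x) := by
    intro t
    have h1 := hH (t • x - H *ᵥ x)
    have h2 := hβ (H *ᵥ x)
    have h3 : x ⬝ᵥ (H *ᵥ (H *ᵥ x)) = sq (H *ᵥ x) := by
      rw [Matrix.dotProduct_mulVec, ← Matrix.mulVec_transpose, hS]
      unfold sq dotProduct
      exact Finset.sum_congr rfl fun i _ => (pow_two _).symm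
    have h4 : (H *ᵥ x) ⬝ᵥ (H *ᵥ x) = sq (H *ᵥ x) := by
      unfold sq dotProduct
      exact Finset.sum_congr rfl fun i _ => (pow_two _).symm
    have h5 : qf H (t • x - H *ᵥ x)
        = t ^ 2 * qf H x - 2 * t * sq (H *ᵥ x) + qf H (H *ᵥ x) := by
      have e1 : H *ᵥ (t • x - H *ᵥ x) = t • (H *ᵥ x) - H *ᵥ (H *ᵥ x) := by
        rw [Matrix.mulVec_sub, Matrix.mulVec_smul]
      have e2 : qf H (t • x - H *ᵥ x)
          = (t • x - H *ᵥ x) ⬝ᵥ (t • (H *ᵥ x) - H *ᵥ (H *ᵥ x)) := by
        unfold qf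
        rw [e1]
      rw [e2, sub_dotProduct, dotProduct_sub, dotProduct_sub, smul_dotProduct, smul_dotProduct,
        dotProduct_smul, dotProduct_smul, h3, h4]
      simp only [smul_eq_mul, qf]
      ring
    linarith
  rcases hβ0.eq_or_lt with h | h
  · have h1 := hβ x
    have h2 := hH x
    rw [← h, zero_mul] at h1
    have h3 : qf H x = 0 := le_antisymm h1 h2
    have h4 := hy 1
    rw [h3, ← h] at h4
    rw [h3]
    linarith
  · have h1 := hy β
    have h2 : 0 ≤ β * (β * qf H x - sq (H *ᵥ x)) := by nlinarith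
    have h3 := nonneg_of_mul_nonneg_right h2 h
    linarith

/-- Jensen for the square -/
theorem PT5_av_sq {Ω : Type*} [Fintype Ω] [Nonempty Ω] (g : Ω → ℝ) :
    av g ^ 2 ≤ av (fun w => g w ^ 2) := by
  have h : 0 ≤ av (fun w => (g w - av g) ^ 2) := av_nonneg fun w => sq_nonneg _
  have h2 : av (fun w => (g w - av g) ^ 2)
      = av (fun w => g w ^ 2) - 2 * av g * av g + av g ^ 2 := by
    have e : ∀ w, (g w - av g) ^ 2 = (g w ^ 2 - 2 * av g * g w) + av g ^ 2 := fun w => by ring
    rw [av_congr e, av_add, av_sub, av_mul_left, av_const]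
  nlinarith

/-- exchanging two points where the sign is negative -/
def PT5_swap {ι : Type*} {Ω : ι → Type*} (ε : ι → Bool) :
    (((i : ι) → Ω i) × ((i : ι) → Ω i)) ≃ (((i : ι) → Ω i) × ((i : ι) → Ω i)) where
  toFun p := (fun i => if ε i = true then p.1 i else p.2 i,
    fun i => if ε i = true then p.2 i else p.1 i)
  invFun p := (fun i => if ε i = true then p.1 i else p.2 i,
    fun i => if ε i = true then p.2 i else p.1 i)
  left_inv p := by
    refine Prod.ext ?_ ?_
    · funext i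
      by_cases h : ε i = true <;> simp [h]
    · funext i
      by_cases h : ε i = true <;> simp [h]
  right_inv p := by
    refine Prod.ext ?_ ?_
    · funext i
      by_cases h : ε i = true <;> simp [h]
    · funext i
      by_cases h : ε i = true <;> simp [h]

/-- T5 -/
theorem mc_main {n : ℕ} {ι : Type*} [Fintype ι] [DecidableEq ι] (Ω : ι → Type*)
    [∀ i, Fintype (Ω i)] [∀ i, Nonempty (Ω i)] (f : ∀ i, Ω i → ℝ)
    (Z : ι → Matrix (Fin n) (Fin n) ℝ) (β μ : ℝ) (hZ : ∀ i, (Z i).PosSemidef)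
    (hf : ∀ i ω, 0 ≤ f i ω) (hf1 : ∀ i, av (f i) = 1)
    (hβ : ∀ i, (∀ ω, f i ω = 1) ∨ ∀ ω x, f i ω * qf (Z i) x ≤ β * sq x)
    (hμ : ∀ x, ∑ i, qf (Z i) x ≤ μ * sq x) (hβ0 : 0 ≤ β) (hμ0 : 0 ≤ μ)
    (s : ℕ) (hs : 1 ≤ s) (hn : n ≤ 2 ^ (2 ^ s)) :
    av (fun ω : (i : ι) → Ω i => qn (∑ i, (f i (ω i) - 1) • Z i)) ^ 2 ≤
      16 * 2 ^ s * β * (av (fun ω : (i : ι) → Ω i => qn (∑ i, (f i (ω i) - 1) • Z i)) + μ) := by
  classical
  set X : ((i : ι) → Ω i) → Matrix (Fin n) (Fin n) ℝ := fun ω => ∑ i, (f i (ω i) - 1) • Z i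
    with hX
  set D : ((i : ι) → Ω i) → ((i : ι) → Ω i) → Matrix (Fin n) (Fin n) ℝ :=
    fun a b => ∑ i, (f i (a i) - f i (b i)) • Z i with hD
  -- the modified weights
  set g : ∀ i, Ω i → ℝ := fun i w => if (∀ ω, f i ω = 1) then 0 else f i w with hg
  set A : (ι → Bool) → ((i : ι) → Ω i) → Matrix (Fin n) (Fin n) ℝ :=
    fun ε ω => ∑ i, sgn (ε i) • (g i (ω i) • Z i) with hA
  have hg0 : ∀ i w, 0 ≤ g i w := by
    intro i w
    simp only [hg]
    split
    · exact le_rfl
    · exact hf i w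
  have hgf : ∀ i w, g i w ≤ f i w := by
    intro i w
    simp only [hg]
    split
    · exact hf i w
    · exact le_rfl
  -- step 1: symmetrisation
  have step1 : ∀ ω, qn (X ω) ≤ av (fun ω' : (i : ι) → Ω i => qn (D ω ω')) := by
    intro ω
    refine qn_le _ (av_nonneg fun _ => qn_nonneg _) fun x => ?_
    have e1 : qf (X ω) x = av (fun ω' : (i : ι) → Ω i => qf (D ω ω') x) := by
      have e2 : ∀ ω' : (i : ι) → Ω i, qf (D ω ω') x
          = ∑ i, (f i (ω i) * qf (Z i) x - f i (ω' i) * qf (Z i) x) := by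
        intro ω'
        rw [hD, PT5_qf_sum]
        refine Finset.sum_congr rfl fun i _ => ?_
        rw [PT5_qf_smul, sub_mul]
      rw [av_congr e2, av_sum, hX, PT5_qf_sum]
      refine Finset.sum_congr rfl fun i _ => ?_
      rw [av_sub, av_const, av_mul_right, av_pi_single, hf1, PT5_qf_smul, sub_mul]
    rw [e1, ← av_mul_right]
    exact (abs_av_le _).trans (av_mono fun ω' => abs_qf_le_qn _ x)
  -- step 2: signs
  have step2 : ∀ ε : ι → Bool, av (fun ω => qn (X ω)) ≤ 2 * av (fun ω => qn (A ε ω)) := by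
    intro ε
    calc av (fun ω => qn (X ω))
        ≤ av (fun ω => av (fun ω' : (i : ι) → Ω i => qn (D ω ω'))) := av_mono step1
      _ = av (fun p : ((i : ι) → Ω i) × ((i : ι) → Ω i) => qn (D p.1 p.2)) :=
          (av_prod (fun p : ((i : ι) → Ω i) × ((i : ι) → Ω i) => qn (D p.1 p.2))).symm
      _ = av (fun p : ((i : ι) → Ω i) × ((i : ι) → Ω i) =>
            qn (D (PT5_swap ε p).1 (PT5_swap ε p).2)) :=
          (av_equiv (PT5_swap ε)
            (fun p : ((i : ι) → Ω i) × ((i : ι) → Ω i) => qn (D p.1 p.2))).symm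
      _ ≤ av (fun p : ((i : ι) → Ω i) × ((i : ι) → Ω i) => qn (A ε p.1) + qn (A ε p.2)) := by
          refine av_mono fun p => ?_
          have e : D (PT5_swap ε p).1 (PT5_swap ε p).2 = A ε p.1 - A ε p.2 := by
            simp only [hD, hA]
            rw [← Finset.sum_sub_distrib]
            refine Finset.sum_congr rfl fun i _ => ?_
            rw [← smul_sub, ← sub_smul, smul_smul]
            congr 1
            simp only [PT5_swap, Equiv.coe_fn_mk, hg, sgn]
            by_cases h1 : ∀ ω, f i ω = 1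
            · rw [h1, h1, if_pos h1, if_pos h1]
              ring
            · rw [if_neg h1, if_neg h1]
              by_cases h2 : ε i = true
              · simp [h2]
              · simp [h2]
          rw [e]
          exact PT5_qn_sub _ _
      _ = av (fun ω => qn (A ε ω)) + av (fun ω => qn (A ε ω)) := by
          rw [av_prod]
          have e : ∀ a : (i : ι) → Ω i, av (fun b : (i : ι) → Ω i => qn (A ε a) + qn (A ε b))
              = qn (A ε a) + av (fun b => qn (A ε b)) := by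
            intro a
            rw [av_add, av_const]
          rw [av_congr e, av_add, av_const]
      _ = 2 * av (fun ω => qn (A ε ω)) := by ring
  -- step 3
  have step3 : av (fun ω => qn (X ω))
      ≤ 2 * av (fun ω => av (fun ε : ι → Bool => qn (A ε ω))) := by
    calc av (fun ω => qn (X ω))
        = av (fun _ : ι → Bool => av (fun ω => qn (X ω))) := (av_const _).symm
      _ ≤ av (fun ε : ι → Bool => 2 * av (fun ω => qn (A ε ω))) := av_mono step2
      _ = 2 * av (fun ω => av (fun ε : ι → Bool => qn (A ε ω))) := by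
          rw [av_mul_left, av_comm]
  -- step 4: the Rademacher bound
  have step4 : ∀ ω, av (fun ε : ι → Bool => qn (A ε ω)) ^ 2
      ≤ 4 * 2 ^ s * (β * (qn (X ω) + μ)) := by
    intro ω
    refine rad_qn (fun i => g i (ω i) • Z i) (fun i => ?_) (β * (qn (X ω) + μ)) ?_ ?_ s hs hn
    · rw [Matrix.transpose_smul, PT5_symm (hZ i)]
    · exact mul_nonneg hβ0 (add_nonneg (qn_nonneg _) hμ0)
    · intro x
      have h1 : ∀ i, sq ((g i (ω i) • Z i) *ᵥ x) ≤ β * (f i (ω i) * qf (Z i) x) := by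
        intro i
        have h2 : sq ((g i (ω i) • Z i) *ᵥ x) ≤ β * qf (g i (ω i) • Z i) x := by
          refine PT5_sq_le ?_ ?_ hβ0 ?_ x
          · rw [Matrix.transpose_smul, PT5_symm (hZ i)]
          · intro y
            rw [PT5_qf_smul]
            exact mul_nonneg (hg0 i _) (PT5_qf_nonneg (hZ i) y)
          · intro y
            rw [PT5_qf_smul]
            rcases hβ i with h | h
            · have : g i (ω i) = 0 := by
                simp only [hg]
                rw [if_pos h]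
              rw [this, zero_mul]
              exact mul_nonneg hβ0 (PT5_sq_nonneg y)
            · exact (mul_le_mul_of_nonneg_right (hgf i _) (PT5_qf_nonneg (hZ i) y)).trans
                (h (ω i) y)
        refine h2.trans (mul_le_mul_of_nonneg_left ?_ hβ0)
        rw [PT5_qf_smul]
        exact mul_le_mul_of_nonneg_right (hgf i _) (PT5_qf_nonneg (hZ i) x)
      have h3 : ∑ i, f i (ω i) * qf (Z i) x = qf (X ω) x + ∑ i, qf (Z i) x := by
        rw [hX, PT5_qf_sum, ← Finset.sum_add_distrib]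
        refine Finset.sum_congr rfl fun i _ => ?_
        rw [PT5_qf_smul]
        ring
      calc ∑ i, sq ((g i (ω i) • Z i) *ᵥ x) ≤ ∑ i, β * (f i (ω i) * qf (Z i) x) :=
            Finset.sum_le_sum fun i _ => h1 i
        _ = β * (qf (X ω) x + ∑ i, qf (Z i) x) := by rw [← Finset.mul_sum, h3]
        _ ≤ β * (qn (X ω) * sq x + μ * sq x) := by
            refine mul_le_mul_of_nonneg_left (add_le_add ?_ (hμ x)) hβ0
            exact (le_abs_self _).trans (abs_qf_le_qn _ x)
        _ = β * (qn (X ω) + μ) * sq x := by ring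
  -- conclusion
  have hE0 : 0 ≤ av (fun ω => qn (X ω)) := av_nonneg fun _ => qn_nonneg _
  calc av (fun ω => qn (X ω)) ^ 2
      ≤ (2 * av (fun ω => av (fun ε : ι → Bool => qn (A ε ω)))) ^ 2 :=
        pow_le_pow_left₀ hE0 step3 2
    _ = 4 * av (fun ω => av (fun ε : ι → Bool => qn (A ε ω))) ^ 2 := by ring
    _ ≤ 4 * av (fun ω => av (fun ε : ι → Bool => qn (A ε ω)) ^ 2) :=
        mul_le_mul_of_nonneg_left (PT5_av_sq _) (by norm_num)
    _ ≤ 4 * av (fun ω => 4 * 2 ^ s * (β * (qn (X ω) + μ))) :=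
        mul_le_mul_of_nonneg_left (av_mono step4) (by norm_num)
    _ = 16 * 2 ^ s * β * (av (fun ω => qn (X ω)) + μ) := by
        rw [av_mul_left, av_mul_left, av_add, av_const]
        ring

/- T5_END -/

end

end A56
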