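import Pool.Agent.Lib_helper50.A56.L.PA
import Pool.Agent.Lib_helper50.A56.L.P_B1

/-!
# Probability layer of MP_a55cb8, block S1 (helper2): sizes
-/

open Matrix Finset

namespace A56

noncomputable section



theorem S1_av_hit {n B : ℕ} (e : Fin n → ℕ) (hB : ∀ i, 2 * e i ≤ B) (φ : Fin n → ℝ)
    (i : Fin n) :
    av (fun w : Fin n → Fin B → Bool => if hit (e i) (w i) then φ i else 0) =
      (1 / 4) ^ e i * φ i := by
  have h1 := av_pi_single (ι := Fin n) (B := fun _ => Fin B → Bool) i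
    (fun z : Fin B → Bool => if hit (e i) z then φ i else 0)
  rw [h1, ← frac_hit (e i) (hB i), frac_eq_av, ← av_mul_right]
  apply av_congr
  intro z
  by_cases hz : hit (e i) z <;> simp [hz]

/-- S1: sizes. -/
theorem size_frac {n B : ℕ} (δ : ℝ) (hδ : 0 < δ) (e : Fin n → ℕ) (bad : Fin n → Bool)
    (hB : ∀ i, 2 * e i ≤ B) (φ : Fin n → ℝ) (hφ : ∀ i, 0 ≤ φ i) :
    frac (fun w : Fin n → Fin B → Bool =>
      ¬ ∑ i, (if wt (e i) (bad i) (w i) = 0 then 0 else φ i) ≤
        (1 / δ) * ∑ i, (1 / 4) ^ e i * φ i) ≤ δ := by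
  have hav : av (fun w : Fin n → Fin B → Bool => ∑ i, if hit (e i) (w i) then φ i else 0) =
      ∑ i, (1 / 4) ^ e i * φ i := by
    rw [av_sum univ (fun i => fun w : Fin n → Fin B → Bool =>
      if hit (e i) (w i) then φ i else 0)]
    exact Finset.sum_congr rfl fun i _ => S1_av_hit e hB φ i
  have h0 : ∀ w : Fin n → Fin B → Bool, 0 ≤ ∑ i, if hit (e i) (w i) then φ i else 0 := by
    intro w
    refine Finset.sum_nonneg fun i _ => ?_
    split
    · exact hφ i
    · exact le_rfl
  refine le_trans (frac_mono ?_) (markov' h0 hδ)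
  intro w hw hc
  apply hw
  rw [hav] at hc
  refine le_trans (Finset.sum_le_sum fun i _ => ?_) hc
  unfold wt
  by_cases hh : hit (e i) (w i)
  · by_cases hb : bad i = false
    · simp [hh, hb]
    · simp [hh, hb, hφ i]
  · simp [hh]

end

end A56
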