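import Pool.Agent.Lib_helper50.A56.Defs

/-!
# Probability layer: averages and fractions on finite types (helper78)
-/

open Finset

namespace A56

noncomputable section

/-- The average of a real function on a finite type. -/
def av {Ω : Type*} [Fintype Ω] (f : Ω → ℝ) : ℝ := (∑ w, f w) / (Fintype.card Ω : ℝ)

section
variable {Ω : Type*} [Fintype Ω]

theorem av_add (f g : Ω → ℝ) : av (fun w => f w + g w) = av f + av g := by
  unfold av; rw [Finset.sum_add_distrib, add_div]

theorem av_sub (f g : Ω → ℝ) : av (fun w => f w - g w) = av f - av g := by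
  unfold av; rw [Finset.sum_sub_distrib, sub_div]

theorem av_mul_left (c : ℝ) (f : Ω → ℝ) : av (fun w => c * f w) = c * av f := by
  unfold av; rw [← Finset.mul_sum, mul_div_assoc]

theorem av_mul_right (c : ℝ) (f : Ω → ℝ) : av (fun w => f w * c) = av f * c := by
  unfold av; rw [← Finset.sum_mul]; ring

theorem av_sum {ι : Type*} (s : Finset ι) (f : ι → Ω → ℝ) :
    av (fun w => ∑ i ∈ s, f i w) = ∑ i ∈ s, av (f i) := by
  unfold av; rw [Finset.sum_comm, Finset.sum_div]

theorem av_const [Nonempty Ω] (c : ℝ) : av (fun _ : Ω => c) = c := by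
  unfold av
  have h : (Fintype.card Ω : ℝ) ≠ 0 := by exact_mod_cast Fintype.card_ne_zero
  rw [Finset.sum_const, Finset.card_univ, nsmul_eq_mul]; field_simp

theorem av_mono {f g : Ω → ℝ} (h : ∀ w, f w ≤ g w) : av f ≤ av g := by
  unfold av; gcongr with w _; exact h w

theorem av_nonneg {f : Ω → ℝ} (h : ∀ w, 0 ≤ f w) : 0 ≤ av f := by
  unfold av; exact div_nonneg (Finset.sum_nonneg fun w _ => h w) (Nat.cast_nonneg _)

theorem av_le_const [Nonempty Ω] {f : Ω → ℝ} {c : ℝ} (h : ∀ w, f w ≤ c) : av f ≤ c :=
  (av_mono h).trans (av_const c).le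

theorem abs_av_le (f : Ω → ℝ) : |av f| ≤ av (fun w => |f w|) := by
  unfold av
  rw [abs_div, Nat.abs_cast]
  gcongr
  exact Finset.abs_sum_le_sum_abs _ _

theorem av_congr {f g : Ω → ℝ} (h : ∀ w, f w = g w) : av f = av g := by
  unfold av; rw [Finset.sum_congr rfl fun w _ => h w]

theorem av_equiv {Ω' : Type*} [Fintype Ω'] (e : Ω ≃ Ω') (f : Ω' → ℝ) :
    av (fun w => f (e w)) = av f := by
  unfold av
  rw [Fintype.card_congr e, Equiv.sum_comp e f]

/-- Fubini for averages. -/
theorem av_prod {Ω' : Type*} [Fintype Ω'] (f : Ω × Ω' → ℝ) :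
    av f = av (fun a => av (fun b => f (a, b))) := by
  unfold av
  rw [Fintype.sum_prod_type, Fintype.card_prod, ← Finset.sum_div, div_div, Nat.cast_mul,
    mul_comm]

theorem av_comm {Ω' : Type*} [Fintype Ω'] (f : Ω → Ω' → ℝ) :
    av (fun a => av (fun b => f a b)) = av (fun b => av (fun a => f a b)) := by
  unfold av
  rw [← Finset.sum_div, ← Finset.sum_div, Finset.sum_comm, div_div, div_div, mul_comm]

open Classical in
/-- Averaging first over one coordinate changes nothing. -/
theorem av_update {ι : Type*} {B : ι → Type*} [Fintype ι] [DecidableEq ι] [∀ i, Fintype (B i)]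
    [∀ i, Nonempty (B i)] (i : ι) (f : ((i : ι) → B i) → ℝ) :
    av f = av (fun w => av (fun b => f (Function.update w i b))) := by
  rw [av_comm]
  have key : ∀ b : B i, av (fun w : (i : ι) → B i => f (Function.update w i b))
      = (∑ w ∈ Finset.univ.filter (fun w : (i : ι) → B i => w i = b), f w) * Fintype.card (B i)
        / Fintype.card ((i : ι) → B i) := by
    intro b
    unfold av
    congr 1
    have h1 : ∑ w : (i : ι) → B i, f (Function.update w i b)
        = ∑ w ∈ Finset.univ.filter (fun w : (i : ι) → B i => w i = b),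
          ∑ v ∈ Finset.univ.filter (fun v : (i : ι) → B i => Function.update v i b = w), f w := by
      rw [← Finset.sum_fiberwise_of_maps_to (s := Finset.univ)
        (t := Finset.univ.filter (fun w : (i : ι) → B i => w i = b))
        (g := fun v => Function.update v i b)]
      · refine Finset.sum_congr rfl fun w _ => Finset.sum_congr rfl fun v hv => ?_
        rw [(Finset.mem_filter.1 hv).2]
      · intro v _
        simp
    rw [h1, Finset.sum_mul]
    refine Finset.sum_congr rfl fun w hw => ?_
    have hwi : w i = b := (Finset.mem_filter.1 hw).2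
    rw [Finset.sum_const, nsmul_eq_mul, mul_comm]
    congr 1
    have h2 : Finset.univ.filter (fun v : (i : ι) → B i => Function.update v i b = w)
        = Finset.univ.image (fun c : B i => Function.update w i c) := by
      ext v
      simp only [Finset.mem_filter, Finset.mem_univ, true_and, Finset.mem_image]
      constructor
      · intro h
        refine ⟨v i, ?_⟩
        rw [← h]; simp
      · rintro ⟨c, rfl⟩
        simp [← hwi]
    rw [h2, Finset.card_image_of_injective, Finset.card_univ]
    intro c c' h
    have := congrFun h i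
    simpa using this
  unfold av at key ⊢
  simp only [key]
  rw [← Finset.sum_div, ← Finset.sum_mul]
  have h3 : ∑ b : B i, ∑ w ∈ Finset.univ.filter (fun w : (i : ι) → B i => w i = b), f w
      = ∑ w, f w := Finset.sum_fiberwise _ _ _
  rw [h3]
  have hB : (Fintype.card (B i) : ℝ) ≠ 0 := by exact_mod_cast Fintype.card_ne_zero
  field_simp

/-- Independence: the average of a product over a product space. -/
theorem av_pi_prod {ι : Type*} {B : ι → Type*} [Fintype ι] [DecidableEq ι] [∀ i, Fintype (B i)]
    (f : (i : ι) → B i → ℝ) :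
    av (fun w : (i : ι) → B i => ∏ i, f i (w i)) = ∏ i, av (f i) := by
  unfold av
  rw [Finset.prod_div_distrib, Fintype.card_pi, Nat.cast_prod, Finset.prod_univ_sum]
  simp [Fintype.piFinset_univ]

/-- The average of a function of one coordinate. -/
theorem av_pi_single {ι : Type*} {B : ι → Type*} [Fintype ι] [DecidableEq ι]
    [∀ i, Fintype (B i)] [∀ i, Nonempty (B i)] (i : ι) (f : B i → ℝ) :
    av (fun w : (i : ι) → B i => f (w i)) = av f := by
  rw [av_update i]
  simp only [Function.update_self]
  exact av_const _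

/-- The average of a product of functions of two different coordinates. -/
theorem av_pi_pair {ι : Type*} {B : ι → Type*} [Fintype ι] [DecidableEq ι]
    [∀ i, Fintype (B i)] [∀ i, Nonempty (B i)] {i j : ι} (hij : i ≠ j)
    (f : B i → ℝ) (g : B j → ℝ) :
    av (fun w : (i : ι) → B i => f (w i) * g (w j)) = av f * av g := by
  rw [av_update i]
  simp only [Function.update_self, Function.update_of_ne hij.symm]
  simp only [av_mul_right]
  rw [av_mul_left, av_pi_single]

/-! Fractions. -/

open Classical in
theorem frac_eq_av (p : Ω → Prop) : frac p = av (fun w => if p w then (1 : ℝ) else 0) := by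
  unfold frac av
  rw [Finset.sum_boole]

theorem frac_nonneg (p : Ω → Prop) : 0 ≤ frac p := by
  unfold frac; positivity

theorem frac_le_one (p : Ω → Prop) : frac p ≤ 1 := by
  classical
  unfold frac
  apply div_le_one_of_le₀ _ (Nat.cast_nonneg _)
  exact_mod_cast Finset.card_le_univ _

theorem frac_false : frac (fun _ : Ω => False) = 0 := by
  unfold frac; simp

theorem frac_mono {P Q : Ω → Prop} (h : ∀ w, P w → Q w) : frac P ≤ frac Q := by
  classical
  rw [frac_eq_av, frac_eq_av]
  apply av_mono
  intro w
  by_cases hp : P w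
  · simp [hp, h w hp]
  · simp only [hp, if_false]; split <;> norm_num

theorem frac_or (P Q : Ω → Prop) : frac (fun w => P w ∨ Q w) ≤ frac P + frac Q := by
  classical
  rw [frac_eq_av, frac_eq_av, frac_eq_av, ← av_add]
  apply av_mono
  intro w
  by_cases hp : P w <;> by_cases hq : Q w <;> simp [hp, hq]

theorem frac_not (P : Ω → Prop) [Nonempty Ω] : frac (fun w => ¬ P w) = 1 - frac P := by
  classical
  have h1 : (1 : ℝ) - frac P = av (fun _ : Ω => (1 : ℝ)) - frac P := by rw [av_const]
  rw [h1, frac_eq_av, frac_eq_av, ← av_sub]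
  apply av_congr
  intro w
  by_cases hp : P w <;> simp [hp]

theorem frac_exists {ι : Type*} (s : Finset ι) (P : ι → Ω → Prop) :
    frac (fun w => ∃ i ∈ s, P i w) ≤ ∑ i ∈ s, frac (P i) := by
  classical
  simp only [frac_eq_av]
  rw [← av_sum]
  apply av_mono
  intro w
  by_cases h : ∃ i ∈ s, P i w
  · rw [if_pos h]
    obtain ⟨i, hi, hp⟩ := h
    calc (1 : ℝ) = if P i w then (1 : ℝ) else 0 := by simp [hp]
      _ ≤ _ := Finset.single_le_sum (f := fun i => if P i w then (1 : ℝ) else 0)
          (fun j _ => by positivity) hi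
  · rw [if_neg h]
    exact Finset.sum_nonneg fun j _ => by positivity

/-- Markov's inequality. -/
theorem markov {f : Ω → ℝ} (h0 : ∀ w, 0 ≤ f w) {t : ℝ} (ht : 0 < t) :
    frac (fun w => t ≤ f w) ≤ av f / t := by
  classical
  rw [le_div_iff₀ ht, mul_comm, frac_eq_av, ← av_mul_left]
  apply av_mono
  intro w
  by_cases h : t ≤ f w
  · rw [if_pos h, mul_one]; exact h
  · rw [if_neg h, mul_zero]; exact h0 w

/-- Markov's inequality, second form. -/
theorem markov' {f : Ω → ℝ} (h0 : ∀ w, 0 ≤ f w) {δ : ℝ} (hδ : 0 < δ) :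
    frac (fun w => ¬ f w ≤ (1 / δ) * av f) ≤ δ := by
  classical
  have ha : 0 ≤ av f := av_nonneg h0
  rcases ha.eq_or_lt with h | h
  · have hz : ∀ w, f w = 0 := by
      unfold av at h
      intro w
      by_contra hne
      have hpos : 0 < f w := lt_of_le_of_ne (h0 w) (Ne.symm hne)
      have hsum : 0 < ∑ w, f w :=
        Finset.sum_pos' (fun w _ => h0 w) ⟨w, Finset.mem_univ w, hpos⟩
      have hc : (0 : ℝ) < Fintype.card Ω := by
        exact_mod_cast Fintype.card_pos_iff.2 ⟨w⟩
      have := div_pos hsum hc
      linarith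
    have h1 : ∀ w, f w ≤ (1 / δ) * av f := by
      intro w
      rw [hz w, ← h]; simp
    calc frac (fun w => ¬ f w ≤ (1 / δ) * av f) ≤ frac (fun _ : Ω => False) :=
          frac_mono fun w hw => hw (h1 w)
      _ = 0 := frac_false
      _ ≤ δ := hδ.le
  · calc frac (fun w => ¬ f w ≤ (1 / δ) * av f)
        ≤ frac (fun w => (1 / δ) * av f ≤ f w) :=
          frac_mono fun w hw => (not_le.1 hw).le
      _ ≤ av f / ((1 / δ) * av f) := markov h0 (by positivity)
      _ = δ := by field_simp

/-- A sequential bound: first the first half, then the second half for every good first half. -/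
theorem frac_prod_le {Ω' : Type*} [Fintype Ω'] [Nonempty Ω] {P : Ω → Prop}
    {Q : Ω → Ω' → Prop} {δ : ℝ} (hδ : 0 ≤ δ) (h : ∀ a, P a → frac (fun b => ¬ Q a b) ≤ δ) :
    frac (fun w : Ω × Ω' => ¬ (P w.1 ∧ Q w.1 w.2)) ≤ frac (fun a => ¬ P a) + δ := by
  classical
  have h2 : ∀ a, P a → av (fun b => if ¬ Q a b then (1 : ℝ) else 0) ≤ δ := by
    intro a ha
    have := h a ha
    rw [frac_eq_av] at this
    refine le_trans (le_of_eq ?_) this
    apply av_congr
    intro w
    by_cases hq : Q a w <;> simp [hq]
  rw [frac_eq_av, frac_eq_av, av_prod]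
  have h1 : av (fun _ : Ω => δ) = δ := av_const δ
  rw [← h1, ← av_add]
  apply av_mono
  intro a
  by_cases hp : P a
  · simp only [hp, true_and, not_true, if_false, zero_add]
    refine le_trans (le_of_eq ?_) (h2 a hp)
    apply av_congr
    intro w
    by_cases hq : Q a w <;> simp [hq]
  · simp only [hp, false_and, not_false_eq_true, if_true]
    rcases isEmpty_or_nonempty Ω' with hE | hN
    · unfold av; simp; positivity
    · rw [av_const]; linarith

/-- Fractions and equivalences. -/
theorem frac_equiv {Ω' : Type*} [Fintype Ω'] (e : Ω ≃ Ω') (p : Ω' → Prop) :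
    frac (fun w => p (e w)) = frac p := by
  classical
  rw [frac_eq_av, frac_eq_av]
  exact av_equiv e (fun w => if p w then (1 : ℝ) else 0)

end

end

end A56
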