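import Pool.Agent.Lib_helper50.A56.L.PD
import Pool.Agent.Lib_helper50.A56.ProbIface
import Pool.Agent.Lib_helper50.A56.L.P_T6
import Pool.Agent.Lib_helper50.A56.L.P_B1
import Pool.Agent.Lib_helper50.A56.L.P_R

/-!
# Block V1 of the probability layer of MP_a55cb8 (helper35)
-/

open Matrix Finset

namespace A56

open PR



noncomputable section

theorem PV1_av_fh {B : ℕ} (e : ℕ) (he : 2 * e ≤ B) : av (fun w : Fin B → Bool => fh e w) = 1 := by
  have h := frac_hit e he
  rw [frac_eq_av] at h
  have h1 : av (fun w : Fin B → Bool => fh e w) =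
      4 ^ e * av (fun w : Fin B → Bool => if hit e w then (1 : ℝ) else 0) := by
    rw [← av_mul_left]
    apply av_congr
    intro w
    unfold fh
    by_cases hw : hit e w <;> simp [hw]
  have h2 : av (fun w : Fin B → Bool => if hit e w then (1 : ℝ) else 0) = (1 / 4) ^ e := by
    rw [← h]
    apply av_congr
    intro w
    by_cases hw : hit e w <;> simp [hw]
  rw [h1, h2, ← mul_pow]
  norm_num

theorem PV1_fh_nonneg {B : ℕ} (e : ℕ) (w : Fin B → Bool) : 0 ≤ fh e w := by
  unfold fh
  split_ifs <;> positivity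

theorem PV1_fh_le {B : ℕ} (e : ℕ) (w : Fin B → Bool) : fh e w ≤ 4 ^ e := by
  unfold fh
  split_ifs
  · exact le_rfl
  · positivity

theorem PV1_fh_zero {B : ℕ} (w : Fin B → Bool) : fh 0 w = 1 := by
  have h : hit 0 w := fun t ht => absurd ht (by omega)
  unfold fh
  rw [if_pos h, pow_zero]

theorem PV1_wt_sq {B : ℕ} (e : ℕ) (w : Fin B → Bool) : wt e false w ^ 2 = fh e w := by
  unfold wt fh
  by_cases hw : hit e w
  · simp only [hw, and_self, if_true]
    rw [← pow_mul, mul_comm, pow_mul]
    norm_num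
  · simp [hw]

theorem PV1_qf_vec {n : ℕ} (a x : Fin n → ℝ) : qf (vecMulVec a a) x = (a ⬝ᵥ x) ^ 2 := by
  unfold qf
  rw [Matrix.vecMulVec_mulVec]
  rw [dotProduct_smul, dotProduct_comm x a]
  simp [pow_two]

theorem PV1_num {L δ u : ℝ} (hδ : 0 < δ) (hδ1 : δ ≤ 1) (hL : 2 ≤ L)
    (hu : 10 ^ 8 * L / δ ≤ u) :
    0 < u ∧ 10 ^ 4 * (4 / u ^ 10) * (1 + 3 / 16) * L ≤ δ ^ 2 * (3 / 16) ^ 2 := by
  have h1 : 10 ^ 8 * L ≤ u * δ := by rwa [div_le_iff₀ hδ] at hu
  have hu0 : 0 < u := by
    by_contra hc
    push Not at hc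
    nlinarith
  have hu1 : 1 ≤ u := by nlinarith
  refine ⟨hu0, ?_⟩
  have h2 : u ^ 2 ≤ u ^ 10 := pow_le_pow_right₀ hu1 (by norm_num)
  have h3 : (10 ^ 8 * L) ^ 2 ≤ u ^ 2 * δ ^ 2 := by
    rw [← mul_pow]
    exact pow_le_pow_left₀ (by positivity) h1 2
  have h4 : 10 ^ 4 * (4 / u ^ 10) * (1 + 3 / 16) * L = (47500 * L) / u ^ 10 := by
    field_simp
    ring
  rw [h4, div_le_iff₀ (by positivity)]
  have h5 : (10 ^ 8 * L) ^ 2 ≤ u ^ 10 * δ ^ 2 := by
    refine h3.trans ?_
    exact mul_le_mul_of_nonneg_right h2 (by positivity)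
  nlinarith

/-- V1 -/
theorem valid_frac {n B : ℕ} (A : Matrix (Fin n) (Fin n) ℝ) (l δ u : ℝ) (e : Fin n → ℕ)
    (bad : Fin n → Bool) (hl : 0 < l) (hδ : 0 < δ) (hδ1 : δ ≤ 1)
    (hu : 10 ^ 8 * (Nat.log2 n + 2) / δ ≤ u) (hr : RatesOK A l (u ^ 10) e)
    (hB : ∀ i, 2 * e i ≤ B)
    (hbad : ∀ x, ∑ i ∈ univ.filter (fun i => bad i = true), (A *ᵥ x) i ^ 2 ≤
      1 / 16 * (sq (A *ᵥ x) + l * sq x)) :
    frac (fun w : Fin n → Fin B → Bool =>
      ¬ Valid (diagonal fun i => wt (e i) (bad i) (w i)) A l) ≤ δ := by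
  obtain ⟨hu0, hnum⟩ := PV1_num hδ hδ1 (L := (Nat.log2 n + 2 : ℝ))
    (by have : (0 : ℝ) ≤ Nat.log2 n := Nat.cast_nonneg _
        linarith) hu
  set f : ∀ _i : Fin n, (Fin B → Bool) → ℝ := fun i w => if bad i = true then 1 else fh (e i) w
    with hf
  set Z : Fin n → Matrix (Fin n) (Fin n) ℝ :=
    fun i => if bad i = true then 0 else vecMulVec (A i) (A i) with hZ
  have hM0 : ∀ x, 0 ≤ qf (gram A l) x := by
    intro x
    rw [qf_gram]
    unfold sq
    positivity
  have hqZ : ∀ i x, qf (Z i) x = if bad i = true then 0 else (A *ᵥ x) i ^ 2 := by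
    intro i x
    by_cases hb : bad i = true
    · simp [hZ, hb, qf]
    · simp only [hZ, hb]
      exact PV1_qf_vec _ _
  have key := mc_rel (fun _ : Fin n => Fin B → Bool) f Z (gram A l) (gram_posDef A hl)
    (4 / u ^ 10) 1 (3 / 16) δ
    (by
      intro i
      by_cases hb : bad i = true
      · simp only [hZ, hb]
        exact Matrix.PosSemidef.zero
      · simp only [hZ, hb]
        have h := Matrix.posSemidef_vecMulVec_self_star (A i)
        simpa using h)
    (by
      intro i w
      simp only [hf]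
      split_ifs
      · norm_num
      · exact PV1_fh_nonneg _ _)
    (by
      intro i
      by_cases hb : bad i = true
      · simp only [hf, hb, if_true]
        exact av_const 1
      · simp only [hf, hb]
        exact PV1_av_fh (e i) (hB i))
    (by
      intro i
      by_cases hb : bad i = true
      · left
        intro w
        simp [hf, hb]
      · rcases hr i with h0 | h1
        · left
          intro w
          simp only [hf, hb, h0]
          exact PV1_fh_zero w
        · right
          intro w x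
          rw [hqZ]
          simp only [hf, hb]
          have h2 := row_sq_le A hl i x
          rw [← qf_gram] at h2
          have h3 : fh (e i) w * (A *ᵥ x) i ^ 2 ≤ 4 ^ e i * (rho A l i * qf (gram A l) x) :=
            mul_le_mul (PV1_fh_le _ _) h2 (by positivity) (by positivity)
          have h4 : (4 : ℝ) ^ e i * rho A l i ≤ 4 / u ^ 10 := by
            rw [le_div_iff₀ (by positivity)]
            have h5 : (4 : ℝ) ^ e i * (u ^ 10 / 4 * rho A l i) ≤ 4 ^ e i * (1 / 4) ^ e i :=
              mul_le_mul_of_nonneg_left h1 (by positivity)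
            have h6 : (4 : ℝ) ^ e i * (1 / 4) ^ e i = 1 := by
              rw [← mul_pow]
              norm_num
            rw [h6] at h5
            nlinarith
          calc (if False then (1 : ℝ) else fh (e i) w) * (if False then 0 else (A *ᵥ x) i ^ 2)
              = fh (e i) w * (A *ᵥ x) i ^ 2 := by simp
            _ ≤ 4 ^ e i * (rho A l i * qf (gram A l) x) := h3
            _ = (4 ^ e i * rho A l i) * qf (gram A l) x := by ring
            _ ≤ 4 / u ^ 10 * qf (gram A l) x := mul_le_mul_of_nonneg_right h4 (hM0 x))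
    (by
      intro x
      rw [one_mul, qf_gram]
      have h1 : ∑ i, qf (Z i) x ≤ sq (A *ᵥ x) := by
        unfold sq
        apply Finset.sum_le_sum
        intro i _
        rw [hqZ]
        split_ifs
        · positivity
        · exact le_rfl
      have h2 : 0 ≤ l * sq x := by
        unfold sq
        positivity
      linarith)
    (by norm_num) hδ hδ1 (by positivity) (by norm_num) hnum
  refine le_trans (frac_mono ?_) key
  intro w hw hc
  apply hw
  intro x
  have h1 := hc x
  have h2 := hbad x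
  rw [qf_gram] at h1
  have e1 : sq ((diagonal fun i => wt (e i) (bad i) (w i)) *ᵥ (A *ᵥ x)) =
      ∑ i, f i (w i) * qf (Z i) x := by
    unfold sq
    apply Finset.sum_congr rfl
    intro i _
    rw [Matrix.mulVec_diagonal, mul_pow, hqZ]
    by_cases hb : bad i = true
    · simp [hb, wt]
    · have hb' : bad i = false := by simpa using hb
      simp only [hf, hb', PV1_wt_sq]
      simp
  have e2 : sq (A *ᵥ x) = ∑ i, qf (Z i) x +
      ∑ i ∈ univ.filter (fun i => bad i = true), (A *ᵥ x) i ^ 2 := by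
    rw [Finset.sum_filter, ← Finset.sum_add_distrib]
    unfold sq
    apply Finset.sum_congr rfl
    intro i _
    rw [hqZ]
    by_cases hb : bad i = true
    · simp [hb]
    · simp [hb]
  have e3 : ∑ i, (f i (w i) - 1) * qf (Z i) x =
      ∑ i, f i (w i) * qf (Z i) x - ∑ i, qf (Z i) x := by
    rw [← Finset.sum_sub_distrib]
    exact Finset.sum_congr rfl fun i _ => by ring
  rw [e3] at h1
  have h3 : 0 ≤ ∑ i ∈ univ.filter (fun i => bad i = true), (A *ᵥ x) i ^ 2 :=
    Finset.sum_nonneg fun i _ => by positivity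
  rw [e1]
  rw [abs_le] at h1 ⊢
  constructor
  · linarith [h1.1]
  · linarith [h1.2]

end

end A56
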